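import Pool.Agent.H41.Fire.Cut

/-! A closed interval of the contour that balances a set of vertices. -/

namespace Pool.Agent.H41.Fire

open Classical Equiv.Perm

set_option linter.unusedSectionVars false

universe u

variable {V : Type u} [Fintype V] {G : SimpleGraph V}

namespace Ctx

variable (C : Ctx G)

/-- weight of a set of positions -/
noncomputable def wtU (U : Finset V) (P : ℕ → Prop) : ℕ := (C.sel P ∩ U).card

theorem wtU_zero {U : Finset V} {P : ℕ → Prop} (h : ∀ x ∈ C.nodes, ¬ P (C.e x)) :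
    C.wtU U P = 0 := by
  rw [wtU, Finset.card_eq_zero, Finset.eq_empty_iff_forall_notMem]
  intro x hx
  rw [Finset.mem_inter, mem_sel] at hx
  exact h x hx.1.1 hx.1.2

theorem wtU_mono {U : Finset V} {P Q : ℕ → Prop} (h : ∀ k, P k → Q k) :
    C.wtU U P ≤ C.wtU U Q := by
  apply Finset.card_le_card
  intro x hx
  rw [Finset.mem_inter, mem_sel] at hx ⊢
  exact ⟨⟨hx.1.1, h _ hx.1.2⟩, hx.2⟩

theorem wtU_or_le (U : Finset V) (P Q : ℕ → Prop) :
    C.wtU U (fun k => P k ∨ Q k) ≤ C.wtU U P + C.wtU U Q := by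
  refine le_trans (Finset.card_le_card ?_) (Finset.card_union_le _ _)
  intro x hx
  rw [Finset.mem_inter, mem_sel] at hx
  rw [Finset.mem_union, Finset.mem_inter, Finset.mem_inter, mem_sel, mem_sel]
  rcases hx.1.2 with h | h
  · exact Or.inl ⟨⟨hx.1.1, h⟩, hx.2⟩
  · exact Or.inr ⟨⟨hx.1.1, h⟩, hx.2⟩

theorem wtU_single (U : Finset V) (i : ℕ) : C.wtU U (fun k => k = i) ≤ 1 :=
  (Finset.card_le_card Finset.inter_subset_left).trans (C.wt_single i)

theorem wtU_chord {U : Finset V} {i : ℕ} (hi : i < C.N) (h : ¬ C.F.IsTree (C.D i)) :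
    C.wtU U (fun k => k = i) = 0 := by
  have h1 := C.wt_chord hi h
  have h2 : C.wtU U (fun k => k = i) ≤ C.wt (fun k => k = i) :=
    Finset.card_le_card Finset.inter_subset_left
  omega

theorem wtU_add_not (U : Finset V) (P : ℕ → Prop) :
    C.wtU U P + C.wtU U (fun k => ¬ P k) = (C.nodes ∩ U).card := by
  rw [wtU, wtU, ← Finset.card_union_of_disjoint]
  · congr 1
    ext x
    rw [Finset.mem_union, Finset.mem_inter, Finset.mem_inter, Finset.mem_inter, mem_sel, mem_sel]
    tauto
  · rw [Finset.disjoint_left]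
    intro x hx hx'
    rw [Finset.mem_inter, mem_sel] at hx hx'
    exact hx'.1.2 hx.1.2

theorem wtU_full (U : Finset V) : C.wtU U (fun k => 0 ≤ k ∧ k < C.N) = (C.nodes ∩ U).card := by
  rw [wtU]
  congr 1
  ext x
  rw [Finset.mem_inter, Finset.mem_inter, mem_sel, mem_nodes]
  exact ⟨fun h => ⟨h.1.1, h.2⟩, fun h => ⟨⟨h.1, Nat.zero_le _, C.e_lt h.1.1 h.1.2⟩, h.2⟩⟩

/-- A balanced closed interval. -/
theorem balancedU (U : Finset V) : ∃ i j, i < j ∧ j ≤ C.N ∧ C.Closed i j ∧
    (C.nodes ∩ U).card ≤ 3 * C.wtU U (fun k => i ≤ k ∧ k < j) ∧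
    (C.nodes ∩ U).card ≤ 3 * C.wtU U (fun k => ¬ (i ≤ k ∧ k < j)) + 3 := by
  set W := (C.nodes ∩ U).card with hWdef
  rcases Nat.eq_zero_or_pos W with hW0 | hW
  · refine ⟨0, C.N, C.N_pos, le_refl _, ?_, by omega, by omega⟩
    intro d hd _ _
    exact ⟨Nat.zero_le _, C.idx_lt (C.in_symm hd)⟩
  have hex : ∃ l, ∃ i j, i + l = j ∧ j ≤ C.N ∧ C.Closed i j ∧
      2 * W ≤ 3 * C.wtU U (fun k => i ≤ k ∧ k < j) := by
    refine ⟨C.N, 0, C.N, by omega, le_refl _, ?_, ?_⟩
    · intro d hd _ _
      exact ⟨Nat.zero_le _, C.idx_lt (C.in_symm hd)⟩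
    · rw [C.wtU_full]; omega
  obtain ⟨i, j, hij, hjN, hcl, hw⟩ := Nat.find_spec hex
  set l := Nat.find hex with hl
  have hmin : ∀ i' j', i' ≤ j' → j' - i' < l → j' ≤ C.N → C.Closed i' j' →
      3 * C.wtU U (fun k => i' ≤ k ∧ k < j') < 2 * W := by
    intro i' j' h1 h2 h3 h4
    by_contra h5
    exact Nat.find_min hex h2 ⟨i', j', by omega, h3, h4, by omega⟩
  have hl0 : 0 < l := by
    rcases Nat.eq_zero_or_pos l with h0 | h0
    · exfalso
      have : C.wtU U (fun k => i ≤ k ∧ k < j) = 0 := by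
        apply C.wtU_zero
        intro x _ hx
        omega
      omega
    · exact h0
  have hiN : i < C.N := by omega
  have hnot := C.wtU_add_not U (fun k => i ≤ k ∧ k < j)
  by_cases hT : C.F.IsTree (C.D i)
  · refine ⟨i, j, by omega, hjN, hcl, by omega, ?_⟩
    have h1 : C.Closed (i + 1) j := by
      intro d hd hdT hdi
      have h2 := hcl d hd hdT ⟨by omega, hdi.2⟩
      refine ⟨?_, h2.2⟩
      have h3 : C.idx d.symm ≠ i := by
        intro h4
        apply hdT
        rw [← C.F.isTree_symm, ← C.D_idx (C.in_symm hd), h4]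
        exact hT
      omega
    have h2 := hmin (i + 1) j (by omega) (by omega) hjN h1
    have h3 : C.wtU U (fun k => i ≤ k ∧ k < j) ≤ C.wtU U (fun k => i + 1 ≤ k ∧ k < j) + 1 := by
      refine le_trans (C.wtU_mono (Q := fun k => (i + 1 ≤ k ∧ k < j) ∨ k = i) ?_) ?_
      · intro k hk
        by_cases hki : k = i
        · exact Or.inr hki
        · exact Or.inl ⟨by omega, hk.2⟩
      · refine le_trans (C.wtU_or_le U _ _) ?_
        have := C.wtU_single U i
        omega
    omega
  · -- chord at position i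
    set c := C.D i with hc
    have hcI : C.In c.fst := C.in_D i
    have hci : C.idx c = i := C.idx_D hiN
    set k0 := C.idx c.symm with hk0
    have hk0' : i ≤ k0 ∧ k0 < j := hcl c hcI hT ⟨by omega, by omega⟩
    have hne : k0 ≠ i := by
      intro h
      have : c.symm = c := C.idx_inj (C.in_symm hcI) hcI (by rw [← hk0, h, hci])
      exact SimpleGraph.Dart.symm_ne c this
    have hlt : C.idx c < C.idx c.symm := by omega
    have hncp : ∀ d : G.Dart, C.In d.fst → ¬ C.F.IsTree d → (i < C.idx d ∧ C.idx d < k0) →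
        (i < C.idx d.symm ∧ C.idx d.symm < k0) := by
      intro d hd hdT h1
      have hdc : d.edge ≠ c.edge := by
        intro h
        rcases (SimpleGraph.dart_edge_eq_iff d c).1 h with h | h
        · rw [h] at h1; omega
        · rw [h] at h1; omega
      have := (C.nc_pos hT hdT hdc hcI hd hlt).1 ⟨by omega, by omega⟩
      omega
    have hcsT : ¬ C.F.IsTree c.symm := fun h => hT (C.F.isTree_symm.1 h)
    have hk0D : C.D k0 = c.symm := C.D_idx (C.in_symm hcI)
    by_cases hk : k0 + 1 < j
    · have hcl1 : C.Closed i (k0 + 1) := by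
        intro d hd hdT h1
        by_cases h2 : C.idx d = i
        · have : d = c := C.idx_inj hd hcI (by omega)
          rw [this]; omega
        · by_cases h3 : C.idx d = k0
          · have : d = c.symm := C.idx_inj hd (C.in_symm hcI) (by omega)
            rw [this, SimpleGraph.Dart.symm_symm]; omega
          · have := hncp d hd hdT ⟨by omega, by omega⟩
            omega
      have hcl2 : C.Closed (k0 + 1) j := by
        intro d hd hdT h1
        have h2 := hcl d hd hdT ⟨by omega, by omega⟩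
        refine ⟨?_, h2.2⟩
        by_contra h3
        have h4 := hcl1 d.symm (C.in_symm hd) (fun h => hdT (C.F.isTree_symm.1 h)) ⟨h2.1, by omega⟩
        rw [SimpleGraph.Dart.symm_symm] at h4
        omega
      have h5 := hmin i (k0 + 1) (by omega) (by omega) (by omega) hcl1
      have h6 := hmin (k0 + 1) j (by omega) (by omega) hjN hcl2
      have h7 : C.wtU U (fun k => i ≤ k ∧ k < j) ≤ C.wtU U (fun k => i ≤ k ∧ k < k0 + 1) +
          C.wtU U (fun k => k0 + 1 ≤ k ∧ k < j) := by
        refine le_trans (C.wtU_mono ?_) (C.wtU_or_le U _ _)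
        intro k hk1
        by_cases hk2 : k < k0 + 1
        · exact Or.inl ⟨hk1.1, hk2⟩
        · exact Or.inr ⟨by omega, hk1.2⟩
      by_cases h8 : W ≤ 3 * C.wtU U (fun k => i ≤ k ∧ k < k0 + 1)
      · refine ⟨i, k0 + 1, by omega, by omega, hcl1, h8, ?_⟩
        have := C.wtU_add_not U (fun k => i ≤ k ∧ k < k0 + 1)
        omega
      · refine ⟨k0 + 1, j, by omega, hjN, hcl2, by omega, ?_⟩
        have := C.wtU_add_not U (fun k => k0 + 1 ≤ k ∧ k < j)
        omega
    · exfalso
      have hcl3 : C.Closed (i + 1) k0 := by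
        intro d hd hdT h1
        have := hncp d hd hdT ⟨by omega, by omega⟩
        omega
      have h5 := hmin (i + 1) k0 (by omega) (by omega) (by omega) hcl3
      have h6 : C.wtU U (fun k => i ≤ k ∧ k < j) ≤ C.wtU U (fun k => i + 1 ≤ k ∧ k < k0) := by
        refine le_trans (C.wtU_mono (Q := fun k => (i + 1 ≤ k ∧ k < k0) ∨ (k = i ∨ k = k0)) ?_) ?_
        · intro k hk1
          by_cases h7 : k = i
          · exact Or.inr (Or.inl h7)
          · by_cases h8 : k = k0
            · exact Or.inr (Or.inr h8)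
            · exact Or.inl ⟨by omega, by omega⟩
        · refine le_trans (C.wtU_or_le U _ _) ?_
          have h8 := C.wtU_or_le U (fun k => k = i) (fun k => k = k0)
          have h9 := C.wtU_chord (U := U) hiN hT
          have h10 := C.wtU_chord (U := U) (i := k0) (by omega) (by rw [hk0D]; exact hcsT)
          omega
      omega


end Ctx

end Pool.Agent.H41.Fire
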