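import Pool.Agent.H41.Fire.Sep.Growth
import Pool.Agent.H41.Fire.Sep.BalU

/-! Planar graphs of small radius have a small balanced separator. -/

namespace Pool.Agent.H41.Fire

open Classical

set_option linter.unusedSectionVars false

universe u

variable {V : Type u} [Fintype V] {G : SimpleGraph V}

namespace Ctx

variable (C : Ctx G)

/-- the ancestors of `x` -/
noncomputable def ancs (x : V) : Finset V := (Finset.range (C.F.lev x + 1)).image (C.F.anc x)

theorem mem_ancs {x y : V} : y ∈ C.ancs x ↔ C.F.Desc y x := by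
  unfold ancs
  rw [Finset.mem_image, C.F.desc_iff]
  constructor
  · rintro ⟨m, hm, h⟩
    rw [Finset.mem_range] at hm
    exact ⟨m, by omega, h⟩
  · rintro ⟨m, hm, h⟩
    exact ⟨m, by rw [Finset.mem_range]; omega, h⟩

theorem card_ancs (x : V) : (C.ancs x).card ≤ C.F.lev x + 1 := by
  refine Finset.card_image_le.trans ?_
  rw [Finset.card_range]

theorem exists_sep (hall : ∀ x, C.In x) {r : ℕ} (hr : ∀ x, C.F.lev x ≤ r) (U : Finset V) :
    ∃ A S B : Finset V, Separation G A S B ∧ S.card ≤ 2 * r + 2 ∧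
      3 * (A ∩ U).card ≤ 2 * U.card + 3 * (2 * r + 2) ∧
      3 * (B ∩ U).card ≤ 2 * U.card + 3 * (2 * r + 2) := by
  obtain ⟨i, j, hij, hjN, hcl, h1, h2⟩ := C.balancedU U
  set S : Finset V := C.ancs (C.D i).fst ∪ C.ancs (C.D j).fst with hS
  have hSc : S.card ≤ 2 * r + 2 := by
    refine (Finset.card_union_le _ _).trans ?_
    have h3 := C.card_ancs (C.D i).fst
    have h4 := C.card_ancs (C.D j).fst
    have h5 := hr (C.D i).fst
    have h6 := hr (C.D j).fst
    omega
  have hroot : C.v ∈ S := by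
    rw [hS, Finset.mem_union, C.mem_ancs, C.F.desc_iff]
    left
    refine ⟨0, Nat.zero_le _, ?_⟩
    apply C.eq_v (hall _)
    exact C.F.lev_anc (Nat.zero_le _)
  have hpos : ∀ x, x ∈ C.nodes → x ∉ S → ∀ k, k < C.N → C.F.Desc x (C.D k).fst →
      ((i ≤ k ∧ k < j) ↔ (i ≤ C.e x ∧ C.e x < j)) := by
    intro x hx hxS k hk hd
    rw [C.mem_nodes] at hx
    rw [hS, Finset.mem_union, C.mem_ancs, C.mem_ancs, not_or] at hxS
    have h3 := (C.block hx.1 hx.2 hk).1 hd
    have h4 := fun h => hxS.1 ((C.block hx.1 hx.2 (k := i) (by omega)).2 h)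
    have h5 := C.e_lt hx.1 hx.2
    rcases Nat.lt_or_ge j C.N with h6 | h6
    · have h7 := fun h => hxS.2 ((C.block hx.1 hx.2 h6).2 h)
      constructor
      · rintro ⟨h8, h9⟩
        refine ⟨by omega, ?_⟩
        by_contra h10
        exact h7 ⟨by omega, by omega⟩
      · rintro ⟨h8, h9⟩
        refine ⟨?_, by omega⟩
        by_contra h10
        exact h4 ⟨by omega, by omega⟩
    · constructor
      · rintro ⟨h8, h9⟩
        exact ⟨by omega, by omega⟩
      · rintro ⟨h8, h9⟩
        refine ⟨?_, by omega⟩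
        by_contra h10
        exact h4 ⟨by omega, by omega⟩
  set P : ℕ → Prop := fun k => i ≤ k ∧ k < j with hP
  have hnot := C.wtU_add_not U P
  have hnU : (C.nodes ∩ U).card ≤ U.card := Finset.card_le_card Finset.inter_subset_right
  have hA : ((C.sel P \ S) ∩ U).card ≤ C.wtU U P :=
    Finset.card_le_card (Finset.inter_subset_inter Finset.sdiff_subset (Finset.Subset.refl _))
  have hB : (((C.sel fun k => ¬ P k) \ S) ∩ U).card ≤ C.wtU U (fun k => ¬ P k) :=
    Finset.card_le_card (Finset.inter_subset_inter Finset.sdiff_subset (Finset.Subset.refl _))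
  have h1' : (C.nodes ∩ U).card ≤ 3 * C.wtU U P := h1
  have h2' : (C.nodes ∩ U).card ≤ 3 * C.wtU U (fun k => ¬ P k) + 3 := h2
  refine ⟨C.sel P \ S, S, (C.sel fun k => ¬ P k) \ S, ⟨?_, ?_, ?_, ?_, ?_⟩, hSc, ?_, ?_⟩
  · intro x
    by_cases hxS : x ∈ S
    · exact Or.inr (Or.inl hxS)
    · have hxn : x ∈ C.nodes := by
        rw [C.mem_nodes]
        refine ⟨hall x, fun h => hxS ?_⟩
        rw [C.eq_v (hall x) h]
        exact hroot
      by_cases hPx : P (C.e x)
      · left
        rw [Finset.mem_sdiff, C.mem_sel]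
        exact ⟨⟨hxn, hPx⟩, hxS⟩
      · right; right
        rw [Finset.mem_sdiff, C.mem_sel]
        exact ⟨⟨hxn, hPx⟩, hxS⟩
  · exact Finset.sdiff_disjoint
  · exact Finset.disjoint_sdiff
  · rw [Finset.disjoint_left]
    intro x hx hx'
    rw [Finset.mem_sdiff, C.mem_sel] at hx hx'
    exact hx'.1.2 hx.1.2
  · intro a ha b hb hab
    rw [Finset.mem_sdiff, C.mem_sel] at ha hb
    obtain ⟨⟨han, haP⟩, haS⟩ := ha
    obtain ⟨⟨hbn, hbP⟩, hbS⟩ := hb
    have han' := C.mem_nodes.1 han
    have hbn' := C.mem_nodes.1 hbn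
    apply hbP
    have hea : (C.D (C.e a)).fst = a := by rw [C.D_e han'.1 han'.2, C.up_fst han'.2]
    have heb : (C.D (C.e b)).fst = b := by rw [C.D_e hbn'.1 hbn'.2, C.up_fst hbn'.2]
    set d : G.Dart := ⟨(a, b), hab⟩ with hd
    by_cases hT : C.F.IsTree d
    · rcases hT with hT | hT
      · have hpa : C.F.par a = b := hT.2
        have h3 : C.F.Desc b a := by
          by_cases hba : a = b
          · exact absurd hba hab.ne
          · rw [← C.F.desc_par han'.2 hba, hpa]
            exact C.F.desc_self b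
        exact (hpos b hbn hbS (C.e a) (C.e_lt han'.1 han'.2) (by rw [hea]; exact h3)).1 haP
      · have hpb : C.F.par b = a := hT.2
        have h3 : C.F.Desc a b := by
          by_cases hba : b = a
          · exact absurd hba hab.ne'
          · rw [← C.F.desc_par hbn'.2 hba, hpb]
            exact C.F.desc_self a
        exact (hpos a han haS (C.e b) (C.e_lt hbn'.1 hbn'.2) (by rw [heb]; exact h3)).2 haP
    · have hdf : C.In d.fst := hall _
      have h3 : P (C.idx d) := by
        refine (hpos a han haS (C.idx d) (C.idx_lt hdf) ?_).2 haP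
        rw [C.D_idx hdf]
        exact C.F.desc_self a
      have h4 := hcl d hdf hT h3
      refine (hpos b hbn hbS (C.idx d.symm) (C.idx_lt (hall _)) ?_).1 h4
      rw [C.D_idx (hall _)]
      exact C.F.desc_self b
  · omega
  · omega

end Ctx

theorem HS_radius (hG : IsPlanar G) {r : ℕ}
    (hr : ∃ v0 : V, ∀ w, ∃ p : G.Walk v0 w, p.length ≤ r) : HS G (2 * r + 2) := by
  intro U
  by_cases hn : 2 ≤ Fintype.card V
  · obtain ⟨R, hR⟩ := hG
    obtain ⟨v0, hv0⟩ := hr
    have hreach : ∀ w, G.Reachable v0 w := fun w => (hv0 w).choose.reachable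
    obtain ⟨w, hw⟩ : ∃ w, G.Adj v0 w := by
      obtain ⟨y, hy⟩ : ∃ y, y ≠ v0 := by
        by_contra hcon
        push Not at hcon
        have : Fintype.card V ≤ 1 := Fintype.card_le_one_iff.2 fun a b => by
          rw [hcon a, hcon b]
        omega
      obtain ⟨p, -⟩ := hv0 y
      cases p with
      | nil => exact absurd rfl hy
      | cons h q => exact ⟨_, h⟩
    obtain ⟨F, hF1, -⟩ := exists_forest G v0 (fun _ => 0)
    let C : Ctx G := {
      R := R
      F := F
      d0 := ⟨(v0, w), hw⟩
      nc := fun c d hc hd hcd => F.noncross R hR hc hd hcd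
      hlev := hF1 }
    apply C.exists_sep (fun x => hreach x)
    intro x
    rw [show C.F.lev x = G.dist v0 x from hF1 x (hreach x)]
    obtain ⟨p, hp⟩ := hv0 x
    exact (SimpleGraph.dist_le p).trans hp
  · push Not at hn
    refine ⟨∅, Finset.univ, ∅, ⟨fun x => Or.inr (Or.inl (Finset.mem_univ _)), ?_, ?_, ?_, ?_⟩,
      by rw [Finset.card_univ]; omega, by simp, by simp⟩
    · exact Finset.disjoint_empty_left _
    · exact Finset.disjoint_empty_right _
    · exact Finset.disjoint_empty_left _
    · intro a ha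
      exact absurd ha (Finset.notMem_empty _)

end Pool.Agent.H41.Fire
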