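import Pool.Agent.H41.Fire.Sep.Witness

/-! An explicit bound for the number of exceptional vertices. -/

namespace Pool.Agent.H41.Fire

theorem sunN_le (p : ℕ) : ∀ w, sunN p w ≤ (p * (w + 1) + 2) ^ (w + 1) := by
  intro w
  induction w with
  | zero =>
    show p ≤ _
    rw [pow_one]
    omega
  | succ w ih =>
    show p + (p * (w + 1)) * sunN p w + 1 ≤ _
    have h1 : (p * (w + 1) + 2) ^ (w + 1) ≤ (p * (w + 1 + 1) + 2) ^ (w + 1) := by
      apply Nat.pow_le_pow_left
      nlinarith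
    have h2 : 1 ≤ (p * (w + 1 + 1) + 2) ^ (w + 1) := Nat.one_le_pow _ _ (by omega)
    have h3 : (p * (w + 1)) * sunN p w ≤ (p * (w + 1)) * (p * (w + 1 + 1) + 2) ^ (w + 1) :=
      Nat.mul_le_mul_left _ (ih.trans h1)
    have h4 : (p * (w + 1 + 1) + 2) ^ (w + 1 + 1) =
        (p * (w + 1)) * (p * (w + 1 + 1) + 2) ^ (w + 1) +
          (p + 2) * (p * (w + 1 + 1) + 2) ^ (w + 1) := by
      rw [pow_succ]
      ring
    have h5 : (p + 2) * 1 ≤ (p + 2) * (p * (w + 1 + 1) + 2) ^ (w + 1) :=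
      Nat.mul_le_mul_left _ h2
    rw [h4]
    omega

/-- explicit bound -/
@[irreducible] def Fmax (m s : ℕ) : ℕ := ((m + 4) * (s + 3) ^ 15) ^ ((s + 3) ^ 3 + 1)

theorem few_le (m s : ℕ) : few m s (s + 1) ≤ Fmax m s := by
  set W := (s + 3) ^ 3 with hW
  have hW27 : 27 ≤ W := by
    have : 3 ^ 3 ≤ (s + 3) ^ 3 := Nat.pow_le_pow_left (by omega) _
    simpa using this
  have hw : fewW s (s + 1) ≤ W := by
    rw [hW, fewW]
    nlinarith
  set w := fewW s (s + 1) with hwdef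
  have hp : fewP m w * (w + 1) + 2 ≤ (m + 4) * (s + 3) ^ 15 := by
    have h1 : fewP m w ≤ W + W * (W * W) * (m + 2) + 2 := by
      unfold fewP
      have : w * (w * w) * (m + 2) ≤ W * (W * W) * (m + 2) :=
        Nat.mul_le_mul_right _ (Nat.mul_le_mul hw (Nat.mul_le_mul hw hw))
      omega
    have h2 : fewP m w * (w + 1) ≤ (W + W * (W * W) * (m + 2) + 2) * (W + 1) :=
      Nat.mul_le_mul h1 (by omega)
    have h3 : (s + 3) ^ 15 = W ^ 5 := by rw [hW, ← pow_mul]
    rw [h3]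
    have h4 : W + 1 ≤ W * W := by nlinarith
    have h5 : W * (W * W) * (W + 1) ≤ W ^ 5 := by
      have : W * (W * W) * (W + 1) ≤ W * (W * W) * (W * W) := Nat.mul_le_mul_left _ h4
      calc W * (W * W) * (W + 1) ≤ W * (W * W) * (W * W) := this
        _ = W ^ 5 := by ring
    have h6 : (W + 2) * (W + 1) + 2 ≤ 2 * W ^ 5 := by
      have h7 : W * W ≤ W ^ 5 := by
        have : W ^ 2 ≤ W ^ 5 := Nat.pow_le_pow_right (by omega) (by omega)
        calc W * W = W ^ 2 := by ring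
          _ ≤ W ^ 5 := this
      nlinarith
    have h8 : (W + W * (W * W) * (m + 2) + 2) * (W + 1) =
        (W + 2) * (W + 1) + (m + 2) * (W * (W * W) * (W + 1)) := by ring
    have h9 : (m + 2) * (W * (W * W) * (W + 1)) ≤ (m + 2) * W ^ 5 := Nat.mul_le_mul_left _ h5
    have h10 : (m + 4) * W ^ 5 = (m + 2) * W ^ 5 + 2 * W ^ 5 := by ring
    omega
  unfold few Fmax
  rw [← hwdef]
  refine (sunN_le _ _).trans ?_
  refine (Nat.pow_le_pow_left hp _).trans ?_
  apply Nat.pow_le_pow_right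
  · have : 0 < (s + 3) ^ 15 := by positivity
    nlinarith
  · omega

end Pool.Agent.H41.Fire
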