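import Pool.Agent.H41.Fire.Anc
import Pool.Agent.H41.Fire.Noncross

/-! Positions along the contour of a tree of an arbitrary spanning forest. -/

namespace Pool.Agent.H41.Fire

open Classical Equiv.Perm

set_option linter.unusedSectionVars false

universe u

variable {V : Type u} [Fintype V] {G : SimpleGraph V}

/-- A rooted contour: rotation system, forest, a dart at the root. -/
structure Ctx0 (G : SimpleGraph V) where
  R : Rotation G
  F : Forest G
  d0 : G.Dart
  nc : ∀ c d : G.Dart, ¬ F.IsTree c → ¬ F.IsTree d → d.edge ≠ c.edge →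
    (F.kap R * Equiv.swap c c.symm).SameCycle d d.symm
  h0 : F.lev d0.fst = 0

namespace Ctx0

variable (C : Ctx0 G)

/-- the root -/
def v : V := C.d0.fst

/-- the component of the root -/
def In (x : V) : Prop := G.Reachable C.v x

theorem lev_v : C.F.lev C.v = 0 := C.h0

theorem in_v : C.In C.v := SimpleGraph.Reachable.refl _

theorem in_adj {x y : V} (h : C.In x) (hxy : G.Adj x y) : C.In y :=
  SimpleGraph.Reachable.trans h hxy.reachable

theorem eq_v {x : V} (h : C.In x) (h0 : C.F.lev x = 0) : x = C.v :=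
  (C.F.root_unique _ _ h C.lev_v h0).symm

/-- contour -/
noncomputable def κ : Equiv.Perm G.Dart := C.F.kap C.R

/-- the dart at position `k` -/
noncomputable def D (k : ℕ) : G.Dart := (C.κ ^ k) C.d0

/-- number of positions -/
noncomputable def N : ℕ := Function.minimalPeriod C.κ C.d0

theorem finDart : Finite G.Dart := Finite.of_injective _ SimpleGraph.Dart.toProd_injective

theorem D_eq (k : ℕ) : C.D k = (C.κ)^[k] C.d0 := by
  rw [D, Equiv.Perm.iterate_eq_pow]

theorem D_succ (k : ℕ) : C.D (k + 1) = C.κ (C.D k) := by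
  rw [D, D, pow_succ', Equiv.Perm.mul_apply]

theorem D_zero : C.D 0 = C.d0 := rfl

theorem N_pos : 0 < C.N := by
  have := finDart (G := G)
  apply Function.IsPeriodicPt.minimalPeriod_pos (orderOf_pos C.κ)
  show (C.κ)^[orderOf C.κ] C.d0 = C.d0
  rw [Equiv.Perm.iterate_eq_pow, pow_orderOf_eq_one]
  rfl

theorem D_N : C.D C.N = C.d0 := by
  rw [D_eq]
  exact Function.iterate_minimalPeriod

theorem exists_D {d : G.Dart} (h : C.In d.fst) : ∃ k < C.N, C.D k = d := by
  have := finDart (G := G)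
  have h1 : (C.κ).SameCycle C.d0 d := C.F.comp_sameCycle C.R h
  obtain ⟨k, hk⟩ := h1.exists_nat_pow_eq
  refine ⟨k % C.N, Nat.mod_lt _ C.N_pos, ?_⟩
  rw [D_eq, N, Function.iterate_mod_minimalPeriod_eq, ← D_eq]
  exact hk

theorem D_inj {i j : ℕ} (hi : i < C.N) (hj : j < C.N) (h : C.D i = C.D j) : i = j := by
  rw [D_eq, D_eq] at h
  exact Function.iterate_injOn_Iio_minimalPeriod hi hj h

/-- position of a dart -/
noncomputable def idx (d : G.Dart) : ℕ := if h : ∃ k, k < C.N ∧ C.D k = d then Nat.find h else 0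

theorem idx_spec {d : G.Dart} (h : C.In d.fst) : C.idx d < C.N ∧ C.D (C.idx d) = d := by
  have h1 : ∃ k, k < C.N ∧ C.D k = d := C.exists_D h
  rw [idx, dif_pos h1]
  exact Nat.find_spec h1

theorem idx_lt {d : G.Dart} (h : C.In d.fst) : C.idx d < C.N := (C.idx_spec h).1

theorem D_idx {d : G.Dart} (h : C.In d.fst) : C.D (C.idx d) = d := (C.idx_spec h).2

theorem in_D (k : ℕ) : C.In (C.D k).fst :=
  C.F.reachable_of_sameCycle C.R ⟨k, by rw [zpow_natCast]; rfl⟩

theorem idx_D {k : ℕ} (hk : k < C.N) : C.idx (C.D k) = k :=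
  C.D_inj (C.idx_lt (C.in_D k)) hk (C.D_idx (C.in_D k))

theorem idx_inj {d e : G.Dart} (hd : C.In d.fst) (he : C.In e.fst) (h : C.idx d = C.idx e) :
    d = e := by rw [← C.D_idx hd, h, C.D_idx he]

theorem fst_D_succ (k : ℕ) :
    (C.D (k + 1)).fst = if C.F.IsTree (C.D k) then (C.D k).snd else (C.D k).fst := by
  rw [D_succ, κ, C.F.fst_kap]

theorem in_symm {d : G.Dart} (h : C.In d.fst) : C.In d.symm.fst := C.in_adj h d.adj

/-- the position after `k`, cyclically -/
theorem idx_κ {d : G.Dart} (h : C.In d.fst) :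
    (C.idx d + 1 < C.N ∧ C.idx (C.κ d) = C.idx d + 1 ∧ C.D (C.idx d + 1) = C.κ d) ∨
    (C.idx d + 1 = C.N ∧ C.idx (C.κ d) = 0 ∧ C.κ d = C.d0) := by
  have h1 : C.D (C.idx d + 1) = C.κ d := by rw [D_succ, C.D_idx h]
  rcases Nat.lt_or_ge (C.idx d + 1) C.N with h2 | h2
  · left
    exact ⟨h2, by rw [← h1, C.idx_D h2], h1⟩
  · right
    have h3 : C.idx d + 1 = C.N := by
      have := C.idx_lt h
      omega
    rw [h3, D_N] at h1
    refine ⟨h3, ?_, h1.symm⟩
    rw [← h1]
    exact C.idx_D C.N_pos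

/-- Chords are noncrossing, in terms of positions. -/
theorem nc_pos {c d : G.Dart} (hc : ¬ C.F.IsTree c) (hd : ¬ C.F.IsTree d)
    (hcd : d.edge ≠ c.edge) (hcI : C.In c.fst) (hdI : C.In d.fst) (hlt : C.idx c < C.idx c.symm) :
    (C.idx c < C.idx d ∧ C.idx d < C.idx c.symm) ↔
      (C.idx c < C.idx d.symm ∧ C.idx d.symm < C.idx c.symm) := by
  have hfin := finDart (G := G)
  set g := C.F.kap C.R * Equiv.swap c c.symm with hg
  have hcI' := C.in_symm hcI
  have hstep : ∀ x : G.Dart, C.In x.fst → C.idx c < C.idx x → C.idx x ≤ C.idx c.symm →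
      C.In (g x).fst ∧ C.idx c < C.idx (g x) ∧ C.idx (g x) ≤ C.idx c.symm := by
    intro x hx h1 h2
    by_cases hxc : x = c.symm
    · have h3 : g x = C.κ c := by rw [hg, hxc, Equiv.Perm.mul_apply, Equiv.swap_apply_right]; rfl
      rw [h3]
      have h4 : C.In (C.κ c).fst := by
        rw [κ, C.F.fst_kap, if_neg hc]; exact hcI
      rcases C.idx_κ hcI with ⟨_, h5, _⟩ | ⟨h5, _, _⟩
      · refine ⟨h4, by omega, by omega⟩
      · have := C.idx_lt hcI'
        omega
    · have hxc' : x ≠ c := fun h => by rw [h] at h1; omega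
      have h3 : g x = C.κ x := by
        rw [hg, Equiv.Perm.mul_apply, Equiv.swap_apply_of_ne_of_ne hxc' hxc]; rfl
      have h6 : C.idx x ≠ C.idx c.symm := fun h => hxc (C.idx_inj hx hcI' h)
      rw [h3]
      have h4 : C.In (C.κ x).fst := by
        rw [κ, C.F.fst_kap]
        split_ifs
        · exact C.in_adj hx x.adj
        · exact hx
      rcases C.idx_κ hx with ⟨_, h5, _⟩ | ⟨h5, _, _⟩
      · refine ⟨h4, by omega, by omega⟩
      · have := C.idx_lt hcI'
        omega
  have hpow : ∀ (k : ℕ) (x : G.Dart), C.In x.fst → C.idx c < C.idx x → C.idx x ≤ C.idx c.symm →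
      C.In ((g ^ k) x).fst ∧ C.idx c < C.idx ((g ^ k) x) ∧ C.idx ((g ^ k) x) ≤ C.idx c.symm := by
    intro k x hx h1 h2
    induction k with
    | zero => exact ⟨hx, h1, h2⟩
    | succ k ih =>
      rw [pow_succ']
      exact hstep _ ih.1 ih.2.1 ih.2.2
  have hsame : g.SameCycle d d.symm := C.nc c d hc hd hcd
  have hdI' := C.in_symm hdI
  have hne1 : d ≠ c.symm := fun h => hcd (by rw [h, SimpleGraph.Dart.edge_symm])
  have hne2 : d.symm ≠ c.symm := fun h => hcd (by
    rw [← SimpleGraph.Dart.edge_symm d, h, SimpleGraph.Dart.edge_symm])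
  have hne1' : C.idx d ≠ C.idx c.symm := fun h => hne1 (C.idx_inj hdI hcI' h)
  have hne2' : C.idx d.symm ≠ C.idx c.symm := fun h => hne2 (C.idx_inj hdI' hcI' h)
  constructor
  · rintro ⟨h1, h2⟩
    obtain ⟨k, hk⟩ := hsame.exists_nat_pow_eq
    obtain ⟨_, h3, h4⟩ := hpow k d hdI h1 h2.le
    rw [hk] at h3 h4
    exact ⟨h3, by omega⟩
  · rintro ⟨h1, h2⟩
    obtain ⟨k, hk⟩ := hsame.symm.exists_nat_pow_eq
    obtain ⟨_, h3, h4⟩ := hpow k d.symm hdI' h1 h2.le
    rw [hk] at h3 h4
    exact ⟨h3, by omega⟩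

/-- the dart to the parent -/
noncomputable def up (x : V) : G.Dart :=
  if h : C.F.lev x ≠ 0 then ⟨(x, C.F.par x), C.F.adj_par x h⟩ else C.d0

theorem up_fst {x : V} (h : C.F.lev x ≠ 0) : (C.up x).fst = x := by rw [up, dif_pos h]

theorem up_snd {x : V} (h : C.F.lev x ≠ 0) : (C.up x).snd = C.F.par x := by rw [up, dif_pos h]

theorem up_up {x : V} (h : C.F.lev x ≠ 0) : C.F.Up (C.up x) := by
  refine ⟨by rw [C.up_fst h]; exact h, by rw [C.up_fst h, C.up_snd h]⟩

theorem eq_up {d : G.Dart} (h : C.F.Up d) : d = C.up d.fst := by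
  apply SimpleGraph.Dart.ext
  apply Prod.ext
  · exact (C.up_fst h.1).symm
  · exact h.2.symm.trans (C.up_snd h.1).symm

/-- last position of the subtree of `x` -/
noncomputable def e (x : V) : ℕ := C.idx (C.up x)

/-- position before the subtree of `x` -/
noncomputable def b (x : V) : ℕ := C.idx (C.up x).symm

theorem in_par {x : V} (hx : C.In x) (h : C.F.lev x ≠ 0) : C.In (C.F.par x) :=
  C.in_adj hx (C.F.adj_par x h)

theorem in_up {x : V} (hx : C.In x) (h : C.F.lev x ≠ 0) : C.In (C.up x).fst := by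
  rw [C.up_fst h]; exact hx

theorem e_lt {x : V} (hx : C.In x) (h : C.F.lev x ≠ 0) : C.e x < C.N := C.idx_lt (C.in_up hx h)

theorem b_lt {x : V} (hx : C.In x) (h : C.F.lev x ≠ 0) : C.b x < C.N :=
  C.idx_lt (C.in_symm (C.in_up hx h))

theorem D_e {x : V} (hx : C.In x) (h : C.F.lev x ≠ 0) : C.D (C.e x) = C.up x :=
  C.D_idx (C.in_up hx h)

theorem D_b {x : V} (hx : C.In x) (h : C.F.lev x ≠ 0) : C.D (C.b x) = (C.up x).symm :=
  C.D_idx (C.in_symm (C.in_up hx h))

theorem e_inj {x y : V} (hx : C.In x) (h : C.F.lev x ≠ 0) (hy : C.In y) (h' : C.F.lev y ≠ 0)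
    (hxy : C.e x = C.e y) : x = y := by
  have := C.idx_inj (C.in_up hx h) (C.in_up hy h') hxy
  rw [← C.up_fst h, this, C.up_fst h']

theorem desc_step {x : V} (_hx : C.In x) (h : C.F.lev x ≠ 0) {k : ℕ} (hk : k < C.N) :
    (C.F.Desc x (C.D (k + 1)).fst ↔ C.F.Desc x (C.D k).fst) ∨
    (k = C.e x ∧ C.F.Desc x (C.D k).fst ∧ ¬ C.F.Desc x (C.D (k + 1)).fst) ∨
    (k = C.b x ∧ ¬ C.F.Desc x (C.D k).fst ∧ C.F.Desc x (C.D (k + 1)).fst) := by
  rw [C.fst_D_succ]
  by_cases hT : C.F.IsTree (C.D k)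
  · rw [if_pos hT]
    rcases hT with hU | hU
    · by_cases hxe : (C.D k).fst = x
      · right; left
        have h1 : C.D k = C.up x := by rw [C.eq_up hU, hxe]
        refine ⟨?_, ?_, ?_⟩
        · rw [e, ← h1, C.idx_D hk]
        · rw [hxe]; exact C.F.desc_self x
        · rw [h1, C.up_snd h]
          exact C.F.not_desc_par h
      · left
        rw [← hU.2]
        exact C.F.desc_par hU.1 hxe
    · have hU1 : C.F.lev (C.D k).snd ≠ 0 := hU.1
      have hU2 : C.F.par (C.D k).snd = (C.D k).fst := hU.2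
      by_cases hxe : (C.D k).snd = x
      · right; right
        have h1 : (C.D k).symm = C.up x := by
          rw [C.eq_up hU]
          show C.up (C.D k).snd = C.up x
          rw [hxe]
        refine ⟨?_, ?_, ?_⟩
        · rw [b, ← h1, SimpleGraph.Dart.symm_symm, C.idx_D hk]
        · rw [← hU2, hxe]
          exact C.F.not_desc_par h
        · rw [hxe]; exact C.F.desc_self x
      · left
        rw [← hU2]
        exact (C.F.desc_par hU1 hxe).symm
  · rw [if_neg hT]
    left; exact Iff.rfl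

theorem not_desc_v {x : V} (h : C.F.lev x ≠ 0) : ¬ C.F.Desc x C.v :=
  C.F.not_desc_root C.lev_v (fun hh => h (by rw [hh]; exact C.lev_v))

theorem b_lt_e {x : V} (hx : C.In x) (h : C.F.lev x ≠ 0) : C.b x < C.e x := by
  by_contra hcon
  have key : ∀ k ≤ C.b x, ¬ C.F.Desc x (C.D k).fst := by
    intro k
    induction k with
    | zero => intro _; exact C.not_desc_v h
    | succ k ih =>
      intro hk
      have h1 := ih (by omega)
      rcases C.desc_step hx h (k := k) (by have := C.b_lt hx h; omega) with h2 | h2 | h2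
      · rw [h2]; exact h1
      · exact h2.2.2
      · omega
  have h3 := key (C.e x) (by omega)
  rw [C.D_e hx h, C.up_fst h] at h3
  exact h3 (C.F.desc_self x)

/-- The subtree of `x` occupies the positions `b x < k ≤ e x`. -/
theorem block {x : V} (hx : C.In x) (h : C.F.lev x ≠ 0) {k : ℕ} (hk : k < C.N) :
    C.F.Desc x (C.D k).fst ↔ C.b x < k ∧ k ≤ C.e x := by
  have hbe := C.b_lt_e hx h
  have hbf : ¬ C.F.Desc x (C.D (C.b x)).fst := by
    rw [C.D_b hx h]
    show ¬ C.F.Desc x (C.up x).snd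
    rw [C.up_snd h]
    exact C.F.not_desc_par h
  have hef : C.F.Desc x (C.D (C.e x)).fst := by
    rw [C.D_e hx h, C.up_fst h]; exact C.F.desc_self x
  have h1 : C.F.Desc x (C.D (C.b x + 1)).fst := by
    rcases C.desc_step hx h (C.b_lt hx h) with h2 | h2 | h2
    · exfalso
      -- darts differ: the step at `b x` is a down step
      have h3 := C.fst_D_succ (C.b x)
      have h4 : C.F.IsTree (C.D (C.b x)) := by
        rw [C.D_b hx h, C.F.isTree_symm]; exact Or.inl (C.up_up h)
      rw [if_pos h4, C.D_b hx h] at h3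
      have h5 : (C.D (C.b x + 1)).fst = x := by
        rw [h3]
        exact C.up_fst h
      rw [h5] at h2
      exact hbf (h2.1 (C.F.desc_self x))
    · exact absurd h2.2.1 hbf
    · exact h2.2.2
  have h2 : ¬ C.F.Desc x (C.D (C.e x + 1)).fst := by
    have h3 := C.fst_D_succ (C.e x)
    have h4 : C.F.IsTree (C.D (C.e x)) := by
      rw [C.D_e hx h]; exact Or.inl (C.up_up h)
    rw [if_pos h4, C.D_e hx h, C.up_snd h] at h3
    rw [h3]
    exact C.F.not_desc_par h
  induction k with
  | zero =>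
    constructor
    · intro h3; exact absurd h3 (C.not_desc_v h)
    · intro h3; omega
  | succ k ih =>
    have ih' := ih (by omega)
    by_cases hkb : k = C.b x
    · subst hkb
      exact ⟨fun _ => ⟨by omega, by omega⟩, fun _ => h1⟩
    · by_cases hke : k = C.e x
      · subst hke
        exact ⟨fun h3 => absurd h3 h2, fun h3 => absurd h3.2 (by omega)⟩
      · rcases C.desc_step hx h (k := k) (by omega) with h3 | h3 | h3
        · refine h3.trans (ih'.trans ?_)
          constructor <;> intro h4 <;> constructor <;> omega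
        · exact absurd h3.1 hke
        · exact absurd h3.1 hkb

end Ctx0

end Pool.Agent.H41.Fire
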