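import Pool.Agent.H41.Fire.Sep.TreeDec
import Pool.Agent.H41.Fire.Sep.Radius

/-! Bounded treewidth, bounded radius, girth five. -/

namespace Pool.Agent.H41.Fire

open Classical

set_option linter.unusedSectionVars false

universe u

/-- `G` has treewidth at most `t`. -/
def TreewidthLE {V : Type u} (G : SimpleGraph V) (t : ℕ) : Prop :=
  ∃ (ι : Type) (_ : Finite ι) (T : SimpleGraph ι) (bag : ι → Finset V), TreeDec G t T bag

/-- Some vertex has distance at most `r` from every vertex. -/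
def RadiusLE {V : Type u} (G : SimpleGraph V) (r : ℕ) : Prop :=
  ∃ v0 : V, ∀ w, ∃ p : G.Walk v0 w, p.length ≤ r

theorem HS_of_treewidth {V : Type u} [Fintype V] {G : SimpleGraph V} {t : ℕ}
    (h : TreewidthLE G t) : HS G (t + 1) := by
  obtain ⟨ι, _, T, bag, h⟩ := h
  exact h.HS

/-- girth at least five -/
theorem noK2_of_girth {V : Type u} {G : SimpleGraph V} (h : 5 ≤ G.egirth) : NoK2 G 2 := by
  intro x y hxy D hD
  by_contra hcon
  push Not at hcon
  obtain ⟨a, ha, b, hb, hab⟩ := Finset.one_lt_card.1 (show 1 < D.card by omega)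
  obtain ⟨hax, hay⟩ := hD a ha
  obtain ⟨hbx, hby⟩ := hD b hb
  set w : G.Walk x x := SimpleGraph.Walk.cons hax.symm (SimpleGraph.Walk.cons hay
    (SimpleGraph.Walk.cons hby.symm (SimpleGraph.Walk.cons hbx SimpleGraph.Walk.nil))) with hw
  have hc : w.IsCycle := by
    rw [hw, SimpleGraph.Walk.cons_isCycle_iff]
    refine ⟨?_, ?_⟩
    · rw [SimpleGraph.Walk.cons_isPath_iff, SimpleGraph.Walk.cons_isPath_iff,
        SimpleGraph.Walk.cons_isPath_iff]
      refine ⟨⟨⟨SimpleGraph.Walk.IsPath.nil, ?_⟩, ?_⟩, ?_⟩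
      · simpa using hbx.ne
      · simp only [SimpleGraph.Walk.support_cons, SimpleGraph.Walk.support_nil, List.mem_cons,
          List.not_mem_nil, or_false, not_or]
        exact ⟨hby.ne', hxy.symm⟩
      · simp only [SimpleGraph.Walk.support_cons, SimpleGraph.Walk.support_nil, List.mem_cons,
          List.not_mem_nil, or_false, not_or]
        exact ⟨hay.ne, hab, hax.ne⟩
    · simp only [SimpleGraph.Walk.edges_cons, SimpleGraph.Walk.edges_nil, List.mem_cons,
        List.not_mem_nil, or_false, not_or, Sym2.eq_iff]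
      refine ⟨?_, ?_, ?_⟩
      · exact ⟨fun h => hax.ne' h.1, fun h => hxy h.1⟩
      · exact ⟨fun h => hxy h.1, fun h => hbx.ne' h.1⟩
      · exact ⟨fun h => hbx.ne' h.1, fun h => hab h.2⟩
  have h1 := h.trans (SimpleGraph.egirth_le_length hc)
  have h2 : w.length = 4 := rfl
  rw [h2] at h1
  exact absurd h1 (by decide)

theorem rate_const (m t : ℕ) : ∃ c : ℝ, 0 < c ∧ ∀ (V : Type u) [Fintype V] (G : SimpleGraph V),
    IsPlanar G → NoK2 G m → (TreewidthLE G t ∨ RadiusLE G t) → 2 ≤ Fintype.card V →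
      c ≤ rho G := by
  obtain ⟨N, hN⟩ := rate_HS.{u} m (1 / 2) (by norm_num)
  set N1 := N + 2 ^ ((t + 1) ^ 4) + 2 ^ ((2 * t + 2) ^ 4) + 2 with hN1
  have hN12' : 2 ≤ N1 := Nat.le_add_left 2 _
  have hN12 : (2 : ℝ) ≤ N1 := by exact_mod_cast hN12'
  have hN1pos : (0 : ℝ) < N1 := by linarith
  have ha : N ≤ N1 := (Nat.le_add_right _ _).trans ((Nat.le_add_right _ _).trans
    (Nat.le_add_right _ _))
  have hb : 2 ^ ((t + 1) ^ 4) ≤ N1 := (Nat.le_add_left _ _).trans ((Nat.le_add_right _ _).trans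
    (Nat.le_add_right _ _))
  have hc : 2 ^ ((2 * t + 2) ^ 4) ≤ N1 := (Nat.le_add_left _ _).trans (Nat.le_add_right _ _)
  refine ⟨1 / N1, by positivity, ?_⟩
  intro V _ G hG h4 h hn
  by_cases hbig : N1 ≤ Fintype.card V
  · have h1 : 1 - 1 / 2 ≤ rho G := by
      rcases h with h | h
      · exact hN V G (t + 1) hG h4 (HS_of_treewidth h) (ha.trans hbig)
          (hb.trans hbig)
      · exact hN V G (2 * t + 2) hG h4 (HS_radius hG h) (ha.trans hbig) (hc.trans hbig)
    have h2 : (1 : ℝ) / N1 ≤ 1 / 2 := one_div_le_one_div_of_le (by norm_num) hN12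
    linarith
  · push Not at hbig
    have hn0 : (0 : ℝ) < Fintype.card V := by
      have : 0 < Fintype.card V := by omega
      exact_mod_cast this
    have h2 : ((Fintype.card V : ℕ) : ℝ) ≤ N1 := by exact_mod_cast hbig.le
    have h3 := card_le_sum (G := G) hn
    rw [rho, div_le_div_iff₀ hN1pos (by positivity)]
    nlinarith

end Pool.Agent.H41.Fire
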