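import Pool.Agent.H41.Fire.Sep.Rate

/-! The surviving rate tends to one when the separators are small. -/

namespace Pool.Agent.H41.Fire

open Classical

set_option linter.unusedSectionVars false

universe u

theorem exists_pow_le (c : ℕ) : ∃ s0 : ℕ, ∀ s ≥ s0, s ^ c ≤ 2 ^ s := by
  have h := tendsto_pow_const_div_const_pow_of_one_lt c (r := 2) (by norm_num)
  have h1 := h.eventually (gt_mem_nhds (show (0 : ℝ) < 1 by norm_num))
  obtain ⟨s0, hs0⟩ := Filter.eventually_atTop.1 h1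
  refine ⟨s0, fun s hs => ?_⟩
  have h2 := hs0 s hs
  rw [div_lt_one (by positivity)] at h2
  have h3 : ((s ^ c : ℕ) : ℝ) < ((2 ^ s : ℕ) : ℝ) := by
    push_cast
    exact h2
  exact_mod_cast h3.le

theorem Fmax_mono {m s s' : ℕ} (h : s ≤ s') : Fmax m s ≤ Fmax m s' := by
  unfold Fmax
  have h1 : (m + 4) * (s + 3) ^ 15 ≤ (m + 4) * (s' + 3) ^ 15 :=
    Nat.mul_le_mul_left _ (Nat.pow_le_pow_left (by omega) _)
  have h2 : (s + 3) ^ 3 + 1 ≤ (s' + 3) ^ 3 + 1 :=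
    Nat.add_le_add_right (Nat.pow_le_pow_left (by omega) _) _
  have h3 : 0 < (m + 4) * (s' + 3) ^ 15 := by positivity
  exact (Nat.pow_le_pow_left h1 _).trans (Nat.pow_le_pow_right h3 h2)

theorem growth_nat (m D : ℕ) : ∃ s0 : ℕ, ∀ s ≥ s0,
    s * (D * s + Fmax m (D * s)) ≤ 2 ^ (s ^ 4) := by
  set E := D + m + 7 with hE
  obtain ⟨s1, hs1⟩ := exists_pow_le (65 * E ^ 3)
  refine ⟨max s1 E, fun s hs => ?_⟩
  have hs1' : s1 ≤ s := (le_max_left _ _).trans hs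
  have hsE : E ≤ s := (le_max_right _ _).trans hs
  have hs7 : 7 ≤ s := by omega
  have hEs : D * s + 3 ≤ E * s := by
    rw [hE]; nlinarith
  have hEs2 : E * s ≤ s ^ 2 := by
    rw [pow_two]; exact Nat.mul_le_mul_right _ hsE
  have h1 : (m + 4) * (D * s + 3) ^ 15 ≤ s ^ 31 := by
    calc (m + 4) * (D * s + 3) ^ 15 ≤ s * (s ^ 2) ^ 15 :=
          Nat.mul_le_mul (by omega) (Nat.pow_le_pow_left (hEs.trans hEs2) _)
      _ = s ^ 31 := by ring
  have h2 : (D * s + 3) ^ 3 + 1 ≤ 2 * (E ^ 3 * s ^ 3) := by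
    have h3 : (D * s + 3) ^ 3 ≤ (E * s) ^ 3 := Nat.pow_le_pow_left hEs _
    rw [mul_pow] at h3
    have h4 : 0 < E ^ 3 * s ^ 3 := by positivity
    omega
  have hF : Fmax m (D * s) ≤ s ^ (62 * (E ^ 3 * s ^ 3)) := by
    unfold Fmax
    refine (Nat.pow_le_pow_left h1 _).trans ?_
    rw [← pow_mul]
    apply Nat.pow_le_pow_right (by omega)
    calc 31 * ((D * s + 3) ^ 3 + 1) ≤ 31 * (2 * (E ^ 3 * s ^ 3)) := Nat.mul_le_mul_left _ h2
      _ = 62 * (E ^ 3 * s ^ 3) := by ring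
  have hpos : 0 < E ^ 3 * s ^ 3 := by positivity
  have hDs : D * s ≤ s ^ (62 * (E ^ 3 * s ^ 3)) := by
    calc D * s ≤ s * s := Nat.mul_le_mul_right _ (by omega)
      _ = s ^ 2 := by ring
      _ ≤ s ^ (62 * (E ^ 3 * s ^ 3)) := Nat.pow_le_pow_right (by omega) (by omega)
  calc s * (D * s + Fmax m (D * s)) ≤ s * (s ^ (62 * (E ^ 3 * s ^ 3)) +
        s ^ (62 * (E ^ 3 * s ^ 3))) := Nat.mul_le_mul_left _ (Nat.add_le_add hDs hF)
    _ = (s * 2) * s ^ (62 * (E ^ 3 * s ^ 3)) := by ring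
    _ ≤ (s * s) * s ^ (62 * (E ^ 3 * s ^ 3)) :=
        Nat.mul_le_mul_right _ (Nat.mul_le_mul_left _ (by omega))
    _ = s ^ (62 * (E ^ 3 * s ^ 3) + 2) := by ring
    _ ≤ s ^ (65 * E ^ 3 * s ^ 3) := by
        apply Nat.pow_le_pow_right (by omega)
        have h5 : 65 * E ^ 3 * s ^ 3 = 62 * (E ^ 3 * s ^ 3) + 3 * (E ^ 3 * s ^ 3) := by ring
        omega
    _ = (s ^ (65 * E ^ 3)) ^ (s ^ 3) := by rw [← pow_mul]
    _ ≤ (2 ^ s) ^ (s ^ 3) := Nat.pow_le_pow_left (hs1 s hs1') _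
    _ = 2 ^ (s ^ 4) := by rw [← pow_mul]; ring_nf

theorem growth (m D : ℕ) {ε : ℝ} (hε : 0 < ε) : ∃ N0 : ℕ, ∀ s n : ℕ, N0 ≤ n → 2 ^ (s ^ 4) ≤ n →
    ((D * s + Fmax m (D * s) : ℕ) : ℝ) ≤ ε * n := by
  obtain ⟨s0, hs0⟩ := growth_nat m D
  obtain ⟨s2, hs2⟩ := exists_nat_gt (1 / ε)
  set s1 := max (max s0 s2) 1 with hs1
  obtain ⟨N0, hN0⟩ := exists_nat_gt (((D * s1 + Fmax m (D * s1) : ℕ) : ℝ) / ε)
  refine ⟨N0, fun s n hn hsn => ?_⟩
  by_cases hs : s1 ≤ s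
  · have h1 := hs0 s (((le_max_left _ _).trans (le_max_left _ _)).trans hs)
    have h2 : s * (D * s + Fmax m (D * s)) ≤ n := h1.trans hsn
    have h3 : (s : ℝ) * ((D * s + Fmax m (D * s) : ℕ) : ℝ) ≤ n := by exact_mod_cast h2
    have h4 : (1 / ε : ℝ) < s := by
      refine hs2.trans_le ?_
      exact_mod_cast ((le_max_right _ _).trans (le_max_left _ _)).trans hs
    have h5 : 1 ≤ ε * s := by
      rw [div_lt_iff₀ hε] at h4
      linarith
    have h6 : (0 : ℝ) ≤ ((D * s + Fmax m (D * s) : ℕ) : ℝ) := Nat.cast_nonneg _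
    calc ((D * s + Fmax m (D * s) : ℕ) : ℝ)
        ≤ (ε * s) * ((D * s + Fmax m (D * s) : ℕ) : ℝ) := by nlinarith
      _ = ε * (s * ((D * s + Fmax m (D * s) : ℕ) : ℝ)) := by ring
      _ ≤ ε * n := mul_le_mul_of_nonneg_left h3 hε.le
  · have h1 : D * s ≤ D * s1 := Nat.mul_le_mul_left _ (by omega)
    have h2 : D * s + Fmax m (D * s) ≤ D * s1 + Fmax m (D * s1) :=
      Nat.add_le_add h1 (Fmax_mono h1)
    have h3 : ((D * s + Fmax m (D * s) : ℕ) : ℝ) ≤ ((D * s1 + Fmax m (D * s1) : ℕ) : ℝ) := by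
      exact_mod_cast h2
    rw [div_lt_iff₀ hε] at hN0
    have h4 : ((N0 : ℕ) : ℝ) ≤ n := by exact_mod_cast hn
    calc ((D * s + Fmax m (D * s) : ℕ) : ℝ) ≤ ((D * s1 + Fmax m (D * s1) : ℕ) : ℝ) := h3
      _ ≤ N0 * ε := hN0.le
      _ ≤ n * ε := mul_le_mul_of_nonneg_right h4 hε.le
      _ = ε * n := by ring

theorem sub_le_cast (a b : ℕ) : (a : ℝ) - b ≤ ((a - b : ℕ) : ℝ) := by
  have h : a ≤ (a - b) + b := by omega
  have h1 : (a : ℝ) ≤ ((a - b : ℕ) : ℝ) + b := by exact_mod_cast h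
  linarith

/-- The surviving rate tends to one. -/
theorem rate_HS (m : ℕ) (ε : ℝ) (hε : 0 < ε) : ∃ N0 : ℕ, ∀ (V : Type u) [Fintype V]
    (G : SimpleGraph V) (s : ℕ), IsPlanar G → NoK2 G m → HS G s → N0 ≤ Fintype.card V →
      2 ^ (s ^ 4) ≤ Fintype.card V → 1 - ε ≤ rho G := by
  obtain ⟨d, hd⟩ := exists_pow_lt_of_lt_one (show (0 : ℝ) < ε / 4 by positivity)
    (show (2 / 3 : ℝ) < 1 by norm_num)
  obtain ⟨N1, hN1⟩ := growth m (2 ^ d + 3) (show (0 : ℝ) < ε / 4 by positivity)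
  refine ⟨max N1 1, ?_⟩
  intro V _ G s hG h4 hHS hn hsn
  set n := Fintype.card V with hndef
  have hn0 : (0 : ℝ) < n := by
    have : 0 < n := lt_of_lt_of_le (by norm_num) ((le_max_right N1 1).trans hn)
    exact_mod_cast this
  by_cases hε1 : 1 < ε
  · have : 0 ≤ rho G := by
      unfold rho
      apply div_nonneg _ (by positivity)
      apply Finset.sum_nonneg
      intro v _
      exact Nat.cast_nonneg _
    linarith
  push Not at hε1
  have hg := hN1 s n ((le_max_left _ _).trans hn) hsn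
  set s' := (2 ^ d + 3) * s with hs'
  obtain ⟨S, hS, hM⟩ := frag_univ hHS d
  have hSs' : S.card ≤ s' := by
    rw [hs']
    nlinarith
  set M := (2 ^ d * n + 3 * s * 3 ^ d) / 3 ^ d with hMdef
  have hM' : ∀ v, v ∉ S → (comp G S v).card ≤ M := by
    intro v hv
    rw [hMdef, Nat.le_div_iff_mul_le (by positivity), mul_comm]
    exact hM v hv
  have hsum := sum_comp hG h4 hSs' hM'
  have hMr : (M : ℝ) ≤ (2 / 3) ^ d * n + 3 * s := by
    have h1 : M * 3 ^ d ≤ 2 ^ d * n + 3 * s * 3 ^ d := Nat.div_mul_le_self _ _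
    have h2 : (M : ℝ) * 3 ^ d ≤ 2 ^ d * n + 3 * s * 3 ^ d := by exact_mod_cast h1
    have h3 : (0 : ℝ) < 3 ^ d := by positivity
    rw [div_pow]
    have h4 : ((2 : ℝ) ^ d / 3 ^ d * n + 3 * s) * 3 ^ d = 2 ^ d * n + 3 * s * 3 ^ d := by
      field_simp
    exact le_of_mul_le_mul_right (by rw [h4]; exact h2) h3
  have hs3 : (3 : ℝ) * s ≤ s' := by
    have : 3 * s ≤ s' := by rw [hs']; nlinarith [Nat.zero_le (2 ^ d * s)]
    exact_mod_cast this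
  have hsF : (s' : ℝ) + Fmax m s' ≤ ε / 4 * n := by
    exact_mod_cast hg
  have hF0 : (0 : ℝ) ≤ Fmax m s' := Nat.cast_nonneg _
  have hx : (1 - ε / 4) * n ≤ ((n - s' - Fmax m s' : ℕ) : ℝ) := by
    have h1 := sub_le_cast (n - s') (Fmax m s')
    have h2 := sub_le_cast n s'
    linarith
  have hdn : (2 / 3 : ℝ) ^ d * n ≤ ε / 4 * n := mul_le_mul_of_nonneg_right hd.le hn0.le
  have hy : (1 - 3 * ε / 4) * n ≤ ((n - s' - M : ℕ) : ℝ) := by
    have h1 := sub_le_cast (n - s') M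
    have h2 := sub_le_cast n s'
    linarith
  have hsumR : ((n - s' - Fmax m s' : ℕ) : ℝ) * ((n - s' - M : ℕ) : ℝ) ≤
      ∑ v, (sn G v : ℝ) := by exact_mod_cast hsum
  have hprod : ((1 - ε / 4) * n) * ((1 - 3 * ε / 4) * n) ≤
      ((n - s' - Fmax m s' : ℕ) : ℝ) * ((n - s' - M : ℕ) : ℝ) := by
    apply mul_le_mul hx hy _ (Nat.cast_nonneg _)
    apply mul_nonneg _ hn0.le
    linarith
  rw [rho, ← hndef, le_div_iff₀ (by positivity)]
  have h5 : (1 - ε) * (n : ℝ) ^ 2 ≤ ((1 - ε / 4) * n) * ((1 - 3 * ε / 4) * n) := by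
    have h6 : ((1 - ε / 4) * n) * ((1 - 3 * ε / 4) * n) - (1 - ε) * (n : ℝ) ^ 2 =
        (3 * ε ^ 2 / 16) * (n : ℝ) ^ 2 := by ring
    have h7 : 0 ≤ (3 * ε ^ 2 / 16) * (n : ℝ) ^ 2 := by positivity
    linarith
  linarith

end Pool.Agent.H41.Fire
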