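import Pool.Agent.H41.Fire.Forest

/-! Partial spanning forests and their extension. -/

namespace Pool.Agent.H41.Fire

open Classical

set_option linter.unusedSectionVars false

universe u

variable {V : Type u} {G : SimpleGraph V}

/-- A forest on the vertex set `U`, given by levels and parents. -/
structure IsPF (G : SimpleGraph V) (U : Finset V) (f : V → ℕ × V) : Prop where
  h : ∀ x ∈ U, (f x).1 ≠ 0 → (f x).2 ∈ U ∧ G.Adj x (f x).2 ∧ (f (f x).2).1 + 1 = (f x).1
  hr : ∀ x ∈ U, ∀ y ∈ U, (f x).1 = 0 → (f y).1 = 0 → G.Reachable x y → x = y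

/-- a single vertex -/
theorem IsPF.single (r : V) : IsPF G {r} (fun x => (0, x)) where
  h := fun x _ hx => absurd rfl hx
  hr := by
    intro x hx y hy _ _ _
    rw [Finset.mem_singleton] at hx hy
    rw [hx, hy]

theorem IsPF.ext1 {U : Finset V} {f : V → ℕ × V} (P : IsPF G U f) {x y : V} (hx : x ∉ U)
    (hy : y ∈ U) (hxy : G.Adj x y) : ∃ f' : V → ℕ × V, IsPF G (insert x U) f' ∧
      (∀ z ∈ U, f' z = f z) ∧ f' x = ((f y).1 + 1, y) := by
  have hne : ∀ z ∈ U, z ≠ x := fun z hz h => hx (h ▸ hz)
  set f' : V → ℕ × V := fun z => if z = x then ((f y).1 + 1, y) else f z with hf'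
  have h1 : ∀ z ∈ U, f' z = f z := fun z hz => if_neg (hne z hz)
  have h2 : f' x = ((f y).1 + 1, y) := if_pos rfl
  refine ⟨f', ⟨?_, ?_⟩, h1, h2⟩
  · intro z hz hz0
    rcases Finset.mem_insert.1 hz with hzx | hzU
    · subst hzx
      rw [h2]
      exact ⟨Finset.mem_insert_of_mem hy, hxy, by rw [h1 y hy]⟩
    · rw [h1 z hzU] at hz0 ⊢
      obtain ⟨g1, g2, g3⟩ := P.h z hzU hz0
      rw [h1 _ g1]
      exact ⟨Finset.mem_insert_of_mem g1, g2, g3⟩
  · intro a ha b hb ha0 hb0 hab
    rcases Finset.mem_insert.1 ha with rfl | haU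
    · rw [h2] at ha0
      simp at ha0
    · rcases Finset.mem_insert.1 hb with rfl | hbU
      · rw [h2] at hb0
        simp at hb0
      · rw [h1 a haU] at ha0
        rw [h1 b hbU] at hb0
        exact P.hr a haU b hbU ha0 hb0 hab

/-- connected finite sets, by cuts -/
def Conn (G : SimpleGraph V) (D : Finset V) : Prop :=
  D.Nonempty ∧ ∀ T ⊆ D, T.Nonempty → T ≠ D → ∃ y ∈ T, ∃ x ∈ D, x ∉ T ∧ G.Adj x y

theorem IsPF.extD : ∀ (n : ℕ) {U : Finset V} {f : V → ℕ × V}, IsPF G U f → ∀ {D : Finset V},
    Conn G D → (D ∩ U).Nonempty → (D \ U).card = n → ∃ f' : V → ℕ × V, IsPF G (U ∪ D) f' ∧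
      (∀ z ∈ U, f' z = f z) ∧ ∀ x ∈ D, x ∉ U → (f' x).2 ∈ D ∧ (f' x).1 ≠ 0 := by
  intro n
  induction n with
  | zero =>
    intro U f P D _ _ hc
    have h1 : D ⊆ U := Finset.sdiff_eq_empty_iff_subset.1 (Finset.card_eq_zero.1 hc)
    have h2 : U ∪ D = U := Finset.union_eq_left.2 h1
    rw [h2]
    exact ⟨f, P, fun z _ => rfl, fun x hx hx' => absurd (h1 hx) hx'⟩
  | succ n ih =>
    intro U f P D hD hne hc
    have hT : D ∩ U ≠ D := by
      intro h
      have h1 : D ⊆ U := Finset.inter_eq_left.1 h
      rw [Finset.sdiff_eq_empty_iff_subset.2 h1] at hc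
      simp at hc
    obtain ⟨y, hy, x, hxD, hxT, hxy⟩ := hD.2 _ Finset.inter_subset_left hne hT
    have hxU : x ∉ U := fun h => hxT (Finset.mem_inter.2 ⟨hxD, h⟩)
    rw [Finset.mem_inter] at hy
    obtain ⟨f1, P1, hag1, hx1⟩ := P.ext1 hxU hy.2 hxy
    have hc1 : (D \ insert x U).card = n := by
      have h1 : D \ insert x U = (D \ U).erase x := by
        ext z
        simp only [Finset.mem_sdiff, Finset.mem_insert, not_or, Finset.mem_erase]
        tauto
      rw [h1, Finset.card_erase_of_mem (Finset.mem_sdiff.2 ⟨hxD, hxU⟩), hc]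
      rfl
    obtain ⟨f2, P2, hag2, hnew⟩ := ih P1 hD
      ⟨x, Finset.mem_inter.2 ⟨hxD, Finset.mem_insert_self _ _⟩⟩ hc1
    have hU : insert x U ∪ D = U ∪ D := by
      ext z
      simp only [Finset.mem_union, Finset.mem_insert]
      constructor
      · rintro ((h | h) | h)
        · right; rw [h]; exact hxD
        · left; exact h
        · right; exact h
      · rintro (h | h)
        · left; right; exact h
        · right; exact h
    rw [hU] at P2
    refine ⟨f2, P2, ?_, ?_⟩
    · intro z hz
      rw [hag2 z (Finset.mem_insert_of_mem hz), hag1 z hz]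
    · intro z hz hzU
      by_cases hzx : z = x
      · subst hzx
        rw [hag2 z (Finset.mem_insert_self _ _), hx1]
        exact ⟨hy.1, Nat.succ_ne_zero _⟩
      · exact hnew z hz (fun h => by
          rcases Finset.mem_insert.1 h with h | h
          · exact hzx h
          · exact hzU h)

theorem IsPF.extAll [Fintype V] : ∀ (n : ℕ) {U : Finset V} {f : V → ℕ × V}, IsPF G U f →
    Uᶜ.card = n → ∃ f' : V → ℕ × V, IsPF G Finset.univ f' ∧ ∀ z ∈ U, f' z = f z := by
  intro n
  induction n with
  | zero =>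
    intro U f P hc
    have h1 : U = Finset.univ := by
      rw [← Finset.compl_eq_empty_iff]
      exact Finset.card_eq_zero.1 hc
    subst h1
    exact ⟨f, P, fun z _ => rfl⟩
  | succ n ih =>
    intro U f P hc
    have hstep : ∃ x, x ∉ U ∧ ∃ f' : V → ℕ × V, IsPF G (insert x U) f' ∧
        (∀ z ∈ U, f' z = f z) := by
      by_cases hex : ∃ x y, x ∉ U ∧ y ∈ U ∧ G.Adj x y
      · obtain ⟨x, y, hx, hy, hxy⟩ := hex
        obtain ⟨f', P', hag, -⟩ := P.ext1 hx hy hxy
        exact ⟨x, hx, f', P', hag⟩
      · push Not at hex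
        have hne : Uᶜ.Nonempty := by
          rw [← Finset.card_pos]; omega
        obtain ⟨x, hx⟩ := hne
        rw [Finset.mem_compl] at hx
        have hne' : ∀ z ∈ U, z ≠ x := fun z hz h => hx (h ▸ hz)
        set f' : V → ℕ × V := fun z => if z = x then (0, x) else f z with hf'
        have h1 : ∀ z ∈ U, f' z = f z := fun z hz => if_neg (hne' z hz)
        have h2 : f' x = (0, x) := if_pos rfl
        -- nothing outside is reachable from U
        have hreach : ∀ a b : V, G.Reachable a b → a ∈ U → b ∈ U := by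
          rintro a b ⟨p⟩
          induction p with
          | nil => exact fun h => h
          | cons hadj _ ih2 =>
            intro ha
            apply ih2
            by_contra hb
            exact hex _ _ hb ha hadj.symm
        refine ⟨x, hx, f', ⟨?_, ?_⟩, h1⟩
        · intro z hz hz0
          rcases Finset.mem_insert.1 hz with hzx | hzU
          · subst hzx
            rw [h2] at hz0
            exact absurd rfl hz0
          · rw [h1 z hzU] at hz0 ⊢
            obtain ⟨g1, g2, g3⟩ := P.h z hzU hz0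
            rw [h1 _ g1]
            exact ⟨Finset.mem_insert_of_mem g1, g2, g3⟩
        · intro a ha b hb ha0 hb0 hab
          rcases Finset.mem_insert.1 ha with rfl | haU
          · rcases Finset.mem_insert.1 hb with rfl | hbU
            · rfl
            · exact absurd (hreach b a hab.symm hbU) hx
          · rcases Finset.mem_insert.1 hb with rfl | hbU
            · exact absurd (hreach a b hab haU) hx
            · rw [h1 a haU] at ha0
              rw [h1 b hbU] at hb0
              exact P.hr a haU b hbU ha0 hb0 hab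
    obtain ⟨x, hx, f1, P1, hag1⟩ := hstep
    have hc1 : (insert x U)ᶜ.card = n := by
      rw [Finset.compl_insert, Finset.card_erase_of_mem (Finset.mem_compl.2 hx), hc]
      rfl
    obtain ⟨f2, P2, hag2⟩ := ih P1 hc1
    exact ⟨f2, P2, fun z hz => by rw [hag2 z (Finset.mem_insert_of_mem hz), hag1 z hz]⟩

/-- the spanning forest -/
def IsPF.toForest [Fintype V] {f : V → ℕ × V} (P : IsPF G Finset.univ f) : Forest G where
  lev := fun x => (f x).1
  par := fun x => (f x).2
  adj_par := fun x hx => (P.h x (Finset.mem_univ _) hx).2.1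
  lev_par := fun x hx => (P.h x (Finset.mem_univ _) hx).2.2
  root_unique := fun x y hxy hx hy => P.hr x (Finset.mem_univ _) y (Finset.mem_univ _) hx hy hxy

end Pool.Agent.H41.Fire
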