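import Pool.Agent.H41.Fire.Sep.Contour0
import Pool.Agent.H41.Fire.Sep.PForest

/-! Planar graphs have no `K_{3,3}` minor (in the form needed here). -/

namespace Pool.Agent.H41.Fire

open Classical Equiv.Perm

set_option linter.unusedSectionVars false

universe u

variable {V : Type u} [Fintype V] {G : SimpleGraph V}

theorem Forest.desc_comparable (F : Forest G) {y z t : V} (hy : F.Desc y t) (hz : F.Desc z t) :
    F.Desc y z ∨ F.Desc z y := by
  obtain ⟨h1, h2⟩ := hy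
  obtain ⟨h3, h4⟩ := hz
  rcases Nat.le_total (F.lev y) (F.lev z) with h | h
  · left
    refine ⟨h, ?_⟩
    rw [← h4, F.anc_anc h h3, h2]
  · right
    refine ⟨h, ?_⟩
    rw [← h2, F.anc_anc h h1, h4]

namespace Ctx0

variable (C : Ctx0 G)

theorem pos {x y : V} (hy : C.In y) (h : C.F.lev y ≠ 0) (hxy : C.F.Desc y x) {d : G.Dart}
    (hd : d.fst = x) (hx : C.In x) : C.b y < C.idx d ∧ C.idx d ≤ C.e y := by
  have hI : C.In d.fst := by rw [hd]; exact hx
  rw [← C.block hy h (C.idx_lt hI), C.D_idx hI, hd]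
  exact hxy

theorem sep {y z : V} (hy : C.In y) (hy0 : C.F.lev y ≠ 0) (hz : C.In z) (hz0 : C.F.lev z ≠ 0)
    (h1 : ¬ C.F.Desc y z) (h2 : ¬ C.F.Desc z y) : C.e y ≤ C.b z ∨ C.e z ≤ C.b y := by
  have key : ∀ k < C.N, ¬ ((C.b y < k ∧ k ≤ C.e y) ∧ (C.b z < k ∧ k ≤ C.e z)) := by
    rintro k hk ⟨h3, h4⟩
    rw [← C.block hy hy0 hk] at h3
    rw [← C.block hz hz0 hk] at h4
    rcases C.F.desc_comparable h3 h4 with h | h
    · exact h1 h
    · exact h2 h
  have a1 := C.b_lt_e hy hy0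
  have a2 := C.b_lt_e hz hz0
  have k1 := key (C.e y) (C.e_lt hy hy0)
  have k2 := key (C.e z) (C.e_lt hz hz0)
  omega

theorem cross {P Q w w' w0 : V} {c d : G.Dart} (hP : C.In P) (hQ : C.In Q) (hw : C.In w)
    (hw' : C.In w') (hw0 : C.In w0) (lP : C.F.lev P ≠ 0) (lQ : C.F.lev Q ≠ 0)
    (lw : C.F.lev w ≠ 0) (lw' : C.F.lev w' ≠ 0) (lw0 : C.F.lev w0 ≠ 0)
    (hc : c.fst = P) (hc' : C.F.Desc w c.snd) (hd : d.fst = Q) (hd' : C.F.Desc w' d.snd)
    (h0P : C.F.Desc w0 P) (h0Q : C.F.Desc w0 Q) (hcT : ¬ C.F.IsTree c) (hdT : ¬ C.F.IsTree d)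
    (h1 : C.e P ≤ C.b Q) (h2 : C.e w0 ≤ C.b w) (h3 : C.e w ≤ C.b w') : False := by
  have hcI : C.In c.fst := by rw [hc]; exact hP
  have hdI : C.In d.fst := by rw [hd]; exact hQ
  have p1 := C.pos hP lP (C.F.desc_self P) hc hP
  have p2 := C.pos hQ lQ (C.F.desc_self Q) hd hQ
  have p3 := C.pos (d := c.symm) hw lw hc' rfl (C.in_symm hcI)
  have p4 := C.pos (d := d.symm) hw' lw' hd' rfl (C.in_symm hdI)
  have p5 := C.pos hw0 lw0 h0P hc hP
  have p6 := C.pos hw0 lw0 h0Q hd hQ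
  have hne : d.edge ≠ c.edge := by
    intro h
    rcases (SimpleGraph.dart_edge_eq_iff d c).1 h with h | h
    · rw [h] at p2; omega
    · rw [h] at p6; omega
  have := (C.nc_pos hcT hdT hne hcI hdI (by omega)).1 ⟨by omega, by omega⟩
  omega

end Ctx0

theorem IsPF.branch {U : Finset V} {f : V → ℕ × V} (P : IsPF G U f) {r : V} (hr : r ∈ U)
    (hr0 : (f r).1 = 0) {D : Finset V} (hD : Conn G D) (hDU : Disjoint D U) {w : V} (hw : w ∈ D)
    (hwr : G.Adj w r) : ∃ f' : V → ℕ × V, IsPF G (U ∪ D) f' ∧ (∀ z ∈ U, f' z = f z) ∧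
      f' w = (1, r) ∧ ∀ x ∈ D, x ≠ w → (f' x).2 ∈ D ∧ (f' x).1 ≠ 0 := by
  have hwU : w ∉ U := Finset.disjoint_left.1 hDU hw
  obtain ⟨f1, P1, hag1, hx1⟩ := P.ext1 hwU hr hwr
  obtain ⟨f2, P2, hag2, hnew⟩ := P1.extD _ hD
    ⟨w, Finset.mem_inter.2 ⟨hw, Finset.mem_insert_self _ _⟩⟩ rfl
  have hU : insert w U ∪ D = U ∪ D := by
    ext z
    simp only [Finset.mem_union, Finset.mem_insert]
    constructor
    · rintro ((h | h) | h)
      · right; rw [h]; exact hw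
      · left; exact h
      · right; exact h
    · rintro (h | h)
      · left; right; exact h
      · right; exact h
  rw [hU] at P2
  refine ⟨f2, P2, ?_, ?_, ?_⟩
  · intro z hz
    rw [hag2 z (Finset.mem_insert_of_mem hz), hag1 z hz]
  · rw [hag2 w (Finset.mem_insert_self _ _), hx1, hr0]
  · intro x hx hxw
    apply hnew x hx
    intro h
    rcases Finset.mem_insert.1 h with h | h
    · exact hxw h
    · exact Finset.disjoint_left.1 hDU hx h

/-- The tree that is used to exclude `K_{3,3}`. -/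
theorem exists_tree33 {D : Fin 3 → Finset V} {k : Fin 3 → V} (hD : ∀ i, Conn G (D i))
    (hdisj : ∀ i j, i ≠ j → Disjoint (D i) (D j)) (hk : Function.Injective k)
    (hkD : ∀ i j, k j ∉ D i) (hadj : ∀ i j, ∃ x ∈ D i, G.Adj x (k j)) :
    ∃ (F : Forest G) (w : Fin 3 → V), F.lev (k 0) = 0 ∧
      (∀ i, w i ∈ D i ∧ F.par (w i) = k 0 ∧ F.lev (w i) = 1 ∧ G.Adj (w i) (k 0)) ∧
      (∀ i, ∀ x ∈ D i, x ≠ w i → F.par x ∈ D i ∧ F.lev x ≠ 0) ∧
      (∀ j, j ≠ 0 → F.par (k j) ∈ D 0 ∧ F.lev (k j) ≠ 0) := by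
  choose x hxD hxA using hadj
  set w : Fin 3 → V := fun i => x i 0 with hw
  have hwk : ∀ i j, w i ≠ k j := fun i j h => hkD i j (h ▸ hxD i 0)
  have P0 := IsPF.single (G := G) (k 0)
  obtain ⟨f1, P1, a1, b1, c1⟩ := P0.branch (Finset.mem_singleton_self _) rfl (hD 0)
    (by rw [Finset.disjoint_singleton_right]; exact hkD 0 0) (hxD 0 0) (hxA 0 0)
  obtain ⟨f2, P2, a2, b2, c2⟩ := P1.branch (r := k 0)
    (Finset.mem_union_left _ (Finset.mem_singleton_self _))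
    (by rw [a1 _ (Finset.mem_singleton_self _)]) (hD 1)
    (by
      rw [Finset.disjoint_union_right, Finset.disjoint_singleton_right]
      exact ⟨hkD 1 0, hdisj 1 0 (by decide)⟩) (hxD 1 0) (hxA 1 0)
  obtain ⟨f3, P3, a3, b3, c3⟩ := P2.branch (r := k 0)
    (Finset.mem_union_left _ (Finset.mem_union_left _ (Finset.mem_singleton_self _)))
    (by rw [a2 _ (Finset.mem_union_left _ (Finset.mem_singleton_self _)),
      a1 _ (Finset.mem_singleton_self _)]) (hD 2)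
    (by
      rw [Finset.disjoint_union_right, Finset.disjoint_union_right,
        Finset.disjoint_singleton_right]
      exact ⟨⟨hkD 2 0, hdisj 2 0 (by decide)⟩, hdisj 2 1 (by decide)⟩) (hxD 2 0) (hxA 2 0)
  set U3 := (({k 0} ∪ D 0) ∪ D 1) ∪ D 2 with hU3
  have m0 : k 0 ∈ U3 := by simp [hU3]
  have mD0 : ∀ z ∈ D 0, z ∈ U3 := fun z hz => by simp [hU3, hz]
  have mD1 : ∀ z ∈ D 1, z ∈ U3 := fun z hz => by simp [hU3, hz]
  have mD2 : ∀ z ∈ D 2, z ∈ U3 := fun z hz => by simp [hU3, hz]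
  have n1 : k 1 ∉ U3 := by
    simp only [hU3, Finset.mem_union, Finset.mem_singleton, not_or]
    exact ⟨⟨⟨fun h => absurd (hk h) (by decide), hkD 0 1⟩, hkD 1 1⟩, hkD 2 1⟩
  have n2 : k 2 ∉ insert (k 1) U3 := by
    simp only [hU3, Finset.mem_insert, Finset.mem_union, Finset.mem_singleton, not_or]
    exact ⟨fun h => absurd (hk h) (by decide),
      ⟨⟨fun h => absurd (hk h) (by decide), hkD 0 2⟩, hkD 1 2⟩, hkD 2 2⟩
  obtain ⟨f4, P4, a4, b4⟩ := P3.ext1 n1 (mD0 _ (hxD 0 1)) (hxA 0 1).symm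
  obtain ⟨f5, P5, a5, b5⟩ := P4.ext1 n2 (Finset.mem_insert_of_mem (mD0 _ (hxD 0 2)))
    (hxA 0 2).symm
  obtain ⟨f6, P6, a6⟩ := P5.extAll _ rfl
  have e3 : ∀ z ∈ U3, f6 z = f3 z := fun z hz => by
    rw [a6 z (Finset.mem_insert_of_mem (Finset.mem_insert_of_mem hz)),
      a5 z (Finset.mem_insert_of_mem hz), a4 z hz]
  have e2 : ∀ z ∈ ({k 0} ∪ D 0) ∪ D 1, f6 z = f2 z := fun z hz => by
    rw [e3 z (Finset.mem_union_left _ hz), a3 z hz]
  have e1 : ∀ z ∈ {k 0} ∪ D 0, f6 z = f1 z := fun z hz => by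
    rw [e2 z (Finset.mem_union_left _ hz), a2 z hz]
  have e0 : f6 (k 0) = (0, k 0) := by
    rw [e1 _ (Finset.mem_union_left _ (Finset.mem_singleton_self _)),
      a1 _ (Finset.mem_singleton_self _)]
  have g1 : ∀ z ∈ D 0, f6 z = f1 z := fun z hz => e1 z (Finset.mem_union_right _ hz)
  have g2 : ∀ z ∈ D 1, f6 z = f2 z := fun z hz => e2 z (Finset.mem_union_right _ hz)
  have g3 : ∀ z ∈ D 2, f6 z = f3 z := fun z hz => e3 z (mD2 z hz)
  refine ⟨P6.toForest, w, ?_, ?_, ?_, ?_⟩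
  · show (f6 (k 0)).1 = 0
    rw [e0]
  · intro i
    show w i ∈ D i ∧ (f6 (w i)).2 = k 0 ∧ (f6 (w i)).1 = 1 ∧ G.Adj (w i) (k 0)
    have hi : f6 (w i) = (1, k 0) := by
      fin_cases i
      · show f6 (x 0 0) = _
        rw [g1 _ (hxD 0 0), b1]
      · show f6 (x 1 0) = _
        rw [g2 _ (hxD 1 0), b2]
      · show f6 (x 2 0) = _
        rw [g3 _ (hxD 2 0), b3]
    rw [hi]
    exact ⟨hxD i 0, rfl, rfl, hxA i 0⟩
  · intro i z hz hzw
    show (f6 z).2 ∈ D i ∧ (f6 z).1 ≠ 0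
    fin_cases i
    · rw [g1 z hz]; exact c1 z hz hzw
    · rw [g2 z hz]; exact c2 z hz hzw
    · rw [g3 z hz]; exact c3 z hz hzw
  · intro j hj
    show (f6 (k j)).2 ∈ D 0 ∧ (f6 (k j)).1 ≠ 0
    fin_cases j
    · exact absurd rfl hj
    · have : f6 (k 1) = ((f3 (x 0 1)).1 + 1, x 0 1) := by
        rw [a6 _ (Finset.mem_insert_of_mem (Finset.mem_insert_self _ _)),
          a5 _ (Finset.mem_insert_self _ _), b4]
      show (f6 (k 1)).2 ∈ D 0 ∧ (f6 (k 1)).1 ≠ 0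
      rw [this]
      exact ⟨hxD 0 1, Nat.succ_ne_zero _⟩
    · have : f6 (k 2) = ((f4 (x 0 2)).1 + 1, x 0 2) := by
        rw [a6 _ (Finset.mem_insert_self _ _), b5]
      show (f6 (k 2)).2 ∈ D 0 ∧ (f6 (k 2)).1 ≠ 0
      rw [this]
      exact ⟨hxD 0 2, Nat.succ_ne_zero _⟩

/-- **No `K_{3,3}` minor.** -/
theorem no_K33 (hG : IsPlanar G) {D : Fin 3 → Finset V} {k : Fin 3 → V}
    (hD : ∀ i, Conn G (D i)) (hdisj : ∀ i j, i ≠ j → Disjoint (D i) (D j))
    (hk : Function.Injective k) (hkD : ∀ i j, k j ∉ D i)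
    (hadj : ∀ i j, ∃ x ∈ D i, G.Adj x (k j)) : False := by
  obtain ⟨R, hR⟩ := hG
  obtain ⟨F, w, F0, Fw, FD, Fk⟩ := exists_tree33 hD hdisj hk hkD hadj
  let C : Ctx0 G := {
    R := R
    F := F
    d0 := ⟨(k 0, w 0), (Fw 0).2.2.2.symm⟩
    nc := fun c d hc hd hcd => F.noncross R hR hc hd hcd
    h0 := F0 }
  have hCF : C.F = F := rfl
  have hv : C.v = k 0 := rfl
  -- everything is in the component
  have hIw : ∀ i, C.In (w i) := fun i => C.in_adj C.in_v (Fw i).2.2.2.symm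
  have hlw : ∀ i, F.lev (w i) ≠ 0 := fun i => by rw [(Fw i).2.2.1]; omega
  have hDD : ∀ (n : ℕ) (i : Fin 3) (x : V), F.lev x = n → x ∈ D i →
      C.In x ∧ F.lev x ≠ 0 ∧ F.Desc (w i) x := by
    intro n
    induction n with
    | zero =>
      intro i x hx hxD
      exfalso
      by_cases h : x = w i
      · rw [h] at hx; exact hlw i hx
      · exact (FD i x hxD h).2 hx
    | succ n ih =>
      intro i x hx hxD
      by_cases h : x = w i
      · rw [h]; exact ⟨hIw i, hlw i, F.desc_self _⟩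
      · obtain ⟨h1, h2⟩ := FD i x hxD h
        have h3 := F.lev_par x h2
        obtain ⟨h4, h5, h6⟩ := ih i (F.par x) (by omega) h1
        exact ⟨C.in_adj h4 (F.adj_par x h2).symm, h2, (F.desc_par h2 h).1 h6⟩
  have hDin : ∀ i, ∀ x ∈ D i, C.In x ∧ F.lev x ≠ 0 ∧ F.Desc (w i) x := fun i x hx =>
    hDD _ i x rfl hx
  have hIk : ∀ j, j ≠ 0 → C.In (k j) := fun j hj =>
    C.in_adj (hDin 0 _ (Fk j hj).1).1 (F.adj_par _ (Fk j hj).2).symm
  have hwk : ∀ i j, w i ≠ k j := fun i j h => hkD i j (h ▸ (Fw i).1)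
  have hdk : ∀ j, j ≠ 0 → F.Desc (w 0) (k j) := fun j hj =>
    (F.desc_par (Fk j hj).2 (hwk 0 j).symm).1 (hDin 0 _ (Fk j hj).1).2.2
  -- the vertices k 1, k 2 have no ancestors among themselves
  have hnd : ∀ (n : ℕ) (j : Fin 3) (x : V), j ≠ 0 → F.lev x = n → x ∈ D 0 →
      ¬ F.Desc (k j) x := by
    intro n
    induction n with
    | zero => intro j x _ hx hxD; exact absurd hx (hDin 0 x hxD).2.1
    | succ n ih =>
      intro j x hj hx hxD h
      have hxk : x ≠ k j := fun hh => hkD 0 j (hh ▸ hxD)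
      by_cases hw : x = w 0
      · subst hw
        rw [← F.desc_par (hlw 0) hxk, (Fw 0).2.1] at h
        exact F.not_desc_root F0 (fun hh => hj (hk hh)) h
      · obtain ⟨h1, h2⟩ := FD 0 x hxD hw
        have h3 := F.lev_par x h2
        rw [← F.desc_par h2 hxk] at h
        exact ih j _ hj (by omega) h1 h
  have hnk : ∀ i j, i ≠ 0 → j ≠ 0 → i ≠ j → ¬ F.Desc (k i) (k j) := by
    intro i j hi hj hij h
    rw [← F.desc_par (Fk j hj).2 (fun hh => hij (hk hh).symm)] at h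
    exact hnd _ i _ hi rfl (Fk j hj).1 h
  have hnw : ∀ i j, i ≠ j → ¬ F.Desc (w i) (w j) := by
    rintro i j hij ⟨h1, h2⟩
    rw [(Fw i).2.2.1] at h2
    have h3 := F.anc_self (w j)
    rw [(Fw j).2.2.1, h2] at h3
    exact Finset.disjoint_left.1 (hdisj i j hij) (Fw i).1 (h3 ▸ (Fw j).1)
  -- block orders
  have hb0 : C.b (w 0) = 0 := by
    have h1 : (C.up (w 0)).symm = C.d0 := by
      apply SimpleGraph.Dart.ext
      apply Prod.ext
      · show (C.up (w 0)).snd = k 0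
        rw [C.up_snd (hlw 0)]
        exact (Fw 0).2.1
      · show (C.up (w 0)).fst = w 0
        exact C.up_fst (hlw 0)
    have h2 : C.idx C.d0 = 0 := by
      have := C.idx_D C.N_pos
      rwa [C.D_zero] at this
    rw [Ctx0.b, h1, h2]
  have h0w : ∀ i, i ≠ 0 → C.e (w 0) ≤ C.b (w i) := by
    intro i hi
    rcases C.sep (hIw 0) (hlw 0) (hIw i) (hlw i) (hnw 0 i (Ne.symm hi)) (hnw i 0 hi) with h | h
    · exact h
    · have := C.b_lt_e (hIw i) (hlw i)
      omega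
  -- chords
  have hchord : ∀ i j, i ≠ 0 → j ≠ 0 → ∃ c : G.Dart, c.fst = k j ∧ F.Desc (w i) c.snd ∧
      ¬ F.IsTree c := by
    intro i j hi hj
    obtain ⟨x, hx, hxk⟩ := hadj i j
    refine ⟨⟨(k j, x), hxk.symm⟩, rfl, (hDin i x hx).2.2, ?_⟩
    rintro (⟨h1, h2⟩ | ⟨h1, h2⟩)
    · have h3 : F.par (k j) = x := h2
      exact Finset.disjoint_left.1 (hdisj 0 i (Ne.symm hi)) (Fk j hj).1 (h3 ▸ hx)
    · have h3 : F.par x = k j := h2
      by_cases hxw : x = w i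
      · rw [hxw, (Fw i).2.1] at h3
        exact hj (hk h3).symm
      · have := (FD i x hx hxw).1
        rw [h3] at this
        exact hkD i j this
  have main : ∀ p q i j : Fin 3, p ≠ 0 → q ≠ 0 → i ≠ 0 → j ≠ 0 → C.e (k p) ≤ C.b (k q) →
      C.e (w i) ≤ C.b (w j) → False := by
    intro p q i j hp hq hi hj h1 h2
    obtain ⟨c, c1, c2, c3⟩ := hchord i p hi hp
    obtain ⟨d, d1, d2, d3⟩ := hchord j q hj hq
    exact C.cross (hIk p hp) (hIk q hq) (hIw i) (hIw j) (hIw 0) (Fk p hp).2 (Fk q hq).2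
      (hlw i) (hlw j) (hlw 0) c1 c2 d1 d2 (hdk p hp) (hdk q hq) c3 d3 h1 (h0w i hi) h2
  have s1 := C.sep (hIk 1 (by decide)) (Fk 1 (by decide)).2 (hIk 2 (by decide))
    (Fk 2 (by decide)).2 (hnk 1 2 (by decide) (by decide) (by decide))
    (hnk 2 1 (by decide) (by decide) (by decide))
  have s2 := C.sep (hIw 1) (hlw 1) (hIw 2) (hlw 2) (hnw 1 2 (by decide)) (hnw 2 1 (by decide))
  rcases s1 with s1 | s1 <;> rcases s2 with s2 | s2
  · exact main 1 2 1 2 (by decide) (by decide) (by decide) (by decide) s1 s2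
  · exact main 1 2 2 1 (by decide) (by decide) (by decide) (by decide) s1 s2
  · exact main 2 1 1 2 (by decide) (by decide) (by decide) (by decide) s1 s2
  · exact main 2 1 2 1 (by decide) (by decide) (by decide) (by decide) s1 s2

end Pool.Agent.H41.Fire
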