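import Pool.Agent.H41.Fire.Sep.Save
import Pool.Agent.H41.Fire.Sep.Bound

/-! The surviving rate of planar graphs with small separators. -/

namespace Pool.Agent.H41.Fire

open Classical

set_option linter.unusedSectionVars false

universe u

variable {V : Type u} {G : SimpleGraph V}

/-- the exceptional vertices -/
noncomputable def Bad [Fintype V] (G : SimpleGraph V) (S : Finset V) (J : ℕ) : Finset V :=
  Finset.univ.filter fun v => v ∉ S ∧ ∀ Z, Allowed G v Z → Reach G S J v Z

theorem mem_Bad [Fintype V] {S : Finset V} {J : ℕ} {v : V} :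
    v ∈ Bad G S J ↔ v ∉ S ∧ ∀ Z, Allowed G v Z → Reach G S J v Z := by
  unfold Bad
  rw [Finset.mem_filter]
  exact ⟨fun h => h.2, fun h => ⟨Finset.mem_univ _, h⟩⟩

/-- The vertices that can be reached from `v` by a walk avoiding `S`, that is, the component of
`v` in the graph without `S` (when `v` is not in `S`). -/
noncomputable def comp [Fintype V] (G : SimpleGraph V) (S : Finset V) (v : V) : Finset V :=
  Finset.univ.filter fun u => ∃ p : G.Walk v u, ∀ x ∈ p.support, x ∉ S

theorem mem_comp [Fintype V] {S : Finset V} {v u : V} :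
    u ∈ comp G S v ↔ ∃ p : G.Walk v u, ∀ x ∈ p.support, x ∉ S := by
  unfold comp
  rw [Finset.mem_filter]
  exact ⟨fun h => h.2, fun h => ⟨Finset.mem_univ _, h⟩⟩

theorem comp_step [Fintype V] {S : Finset V} {v a b : V} (ha : a ∈ comp G S v) (hab : G.Adj a b)
    (hb : b ∉ S) : b ∈ comp G S v := by
  rw [mem_comp] at ha ⊢
  obtain ⟨p, hp⟩ := ha
  refine ⟨p.concat hab, ?_⟩
  intro x hx
  rw [SimpleGraph.Walk.support_concat, List.mem_append, List.mem_singleton] at hx
  rcases hx with hx | hx
  · exact hp x hx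
  · rw [hx]; exact hb

theorem comp_mono [Fintype V] {S S' : Finset V} (h : S ⊆ S') (v : V) :
    comp G S' v ⊆ comp G S v := by
  intro u hu
  rw [mem_comp] at hu ⊢
  obtain ⟨p, hp⟩ := hu
  exact ⟨p, fun x hx hxS => hp x hx (h hxS)⟩

theorem le_sn_of_good [Fintype V] {s : ℕ} {S : Finset V} (hS : S.card ≤ s) {v : V} (hvS : v ∉ S)
    (hb : v ∉ Bad G S (s + 1)) :
    Fintype.card V ≤ sn G v + S.card + (comp G S v).card := by
  rw [mem_Bad] at hb
  push Not at hb
  obtain ⟨Z, hZ, hr⟩ := hb hvS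
  have h1 : CanSave G v ((Finset.univ \ (S ∪ comp G S v) : Finset V) : Set V) := by
    refine save (A := comp G S v) hS (le_refl _) ?_ ?_ ?_ ?_ hvS hZ hr
    · intro x
      by_cases h1 : x ∈ comp G S v
      · exact Or.inl h1
      · by_cases h2 : x ∈ S
        · exact Or.inr (Or.inl h2)
        · right; right
          rw [Finset.mem_sdiff, Finset.mem_union]
          exact ⟨Finset.mem_univ _, fun h => h.elim h2 h1⟩
    · intro x hx hx'
      rw [Finset.mem_sdiff, Finset.mem_union] at hx'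
      exact hx'.2 (Or.inr hx)
    · intro a ha b hb hab
      rw [Finset.mem_sdiff, Finset.mem_union, not_or] at hb
      exact hb.2.2 (comp_step ha hab hb.2.1)
    · rw [mem_comp]
      refine ⟨SimpleGraph.Walk.nil, ?_⟩
      intro x hx
      rw [SimpleGraph.Walk.support_nil, List.mem_singleton] at hx
      rw [hx]; exact hvS
  have h2 := h1.card_le
  have h3 := Finset.card_union_le S (comp G S v)
  have h4 := Finset.le_card_sdiff (S ∪ comp G S v) (Finset.univ : Finset V)
  rw [Finset.card_univ] at h4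
  omega

/-- **Main inequality.** -/
theorem sum_comp [Fintype V] (hG : IsPlanar G) {m s M : ℕ} (h4 : NoK2 G m) {S : Finset V}
    (hS : S.card ≤ s) (hM : ∀ v, v ∉ S → (comp G S v).card ≤ M) :
    (Fintype.card V - s - Fmax m s) * (Fintype.card V - s - M) ≤ ∑ v, sn G v := by
  set X := Bad G S (s + 1) with hX
  have hXc : X.card ≤ Fmax m s := by
    refine le_trans (few_bad hG h4 hS X ?_).le (few_le m s)
    intro v hv
    exact mem_Bad.1 hv
  have h1 : ∑ v ∈ Finset.univ \ (S ∪ X), sn G v ≤ ∑ v, sn G v :=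
    Finset.sum_le_sum_of_subset (Finset.subset_univ _)
  have h2 : (Finset.univ \ (S ∪ X)).card * (Fintype.card V - s - M) ≤
      ∑ v ∈ Finset.univ \ (S ∪ X), sn G v := by
    rw [← smul_eq_mul, ← Finset.sum_const]
    apply Finset.sum_le_sum
    intro v hv
    rw [Finset.mem_sdiff, Finset.mem_union, not_or] at hv
    have h3 := le_sn_of_good hS hv.2.1 hv.2.2
    have h5 := hM v hv.2.1
    omega
  have h3 : Fintype.card V - s - Fmax m s ≤ (Finset.univ \ (S ∪ X)).card := by
    have h5 := Finset.card_union_le S X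
    have h6 := Finset.le_card_sdiff (S ∪ X) (Finset.univ : Finset V)
    rw [Finset.card_univ] at h6
    omega
  exact (Nat.mul_le_mul_right _ h3).trans (h2.trans h1)

theorem card_le_sum [Fintype V] (hn : 2 ≤ Fintype.card V) :
    ((Fintype.card V : ℕ) : ℝ) ≤ ∑ v, (sn G v : ℝ) := by
  have : ∑ v : V, (1 : ℝ) ≤ ∑ v : V, (sn G v : ℝ) := by
    apply Finset.sum_le_sum
    intro v _
    exact_mod_cast one_le_sn v hn
  rw [Finset.sum_const, Finset.card_univ, nsmul_eq_mul, mul_one] at this
  exact this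

/-- `V` is the disjoint union of `A`, `S` and `B`, and no edge joins `A` and `B`. -/
structure Separation (G : SimpleGraph V) (A S B : Finset V) : Prop where
  cover : ∀ x, x ∈ A ∨ x ∈ S ∨ x ∈ B
  disj_AS : Disjoint A S
  disj_SB : Disjoint S B
  disj_AB : Disjoint A B
  no_edge : ∀ a ∈ A, ∀ b ∈ B, ¬ G.Adj a b

theorem Separation.symm {A S B : Finset V} (h : Separation G A S B) : Separation G B S A :=
  ⟨fun x => (h.cover x).elim (fun h1 => Or.inr (Or.inr h1))
    (fun h1 => h1.elim (fun h2 => Or.inr (Or.inl h2)) Or.inl),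
    h.disj_SB.symm, h.disj_AS.symm, h.disj_AB.symm, fun a ha b hb hab => h.no_edge b hb a ha hab.symm⟩

theorem Separation.comp_subset [Fintype V] {A S B S' : Finset V} (h : Separation G A S B)
    (hS : S ⊆ S') {v : V} (hv : v ∈ A) : comp G S' v ⊆ A := by
  intro u hu
  obtain ⟨p, hp⟩ := mem_comp.1 hu
  exact stay h.cover h.no_edge p (fun z hz hzS => hp z hz (hS hzS)) hv

/-- Every set of vertices is balanced by some separation of order at most `s`. -/
def HS (G : SimpleGraph V) (s : ℕ) : Prop :=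
  ∀ U : Finset V, ∃ A S B : Finset V, Separation G A S B ∧ S.card ≤ s ∧
    3 * (A ∩ U).card ≤ 2 * U.card + 3 * s ∧ 3 * (B ∩ U).card ≤ 2 * U.card + 3 * s

/-- Fragmentation. -/
theorem frag [Fintype V] {s : ℕ} (h : HS G s) : ∀ (d : ℕ) (U : Finset V),
    ∃ S : Finset V, S.card + s ≤ s * 2 ^ d ∧ ∀ v ∈ U, v ∉ S →
      3 ^ d * (comp G S v ∩ U).card + 3 * s * 2 ^ d ≤ 2 ^ d * U.card + 3 * s * 3 ^ d := by
  intro d
  induction d with
  | zero =>
    intro U
    refine ⟨∅, by simp, ?_⟩
    intro v _ _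
    have := Finset.card_le_card (Finset.inter_subset_right (s₁ := comp G ∅ v) (s₂ := U))
    simp only [pow_zero, one_mul, mul_one]
    omega
  | succ d ih =>
    intro U
    obtain ⟨A, S, B, hsep, hS, hA, hB⟩ := h U
    obtain ⟨SA, hSA, hSA'⟩ := ih (A ∩ U)
    obtain ⟨SB, hSB, hSB'⟩ := ih (B ∩ U)
    refine ⟨S ∪ (SA ∪ SB), ?_, ?_⟩
    · have h1 := Finset.card_union_le S (SA ∪ SB)
      have h2 := Finset.card_union_le SA SB
      rw [pow_succ]
      have h3 : s * (2 ^ d * 2) = s * 2 ^ d + s * 2 ^ d := by ring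
      omega
    · have main : ∀ (A B : Finset V), Separation G A S B → 3 * (A ∩ U).card ≤ 2 * U.card + 3 * s →
          ∀ SA : Finset V, (∀ v ∈ A ∩ U, v ∉ SA →
            3 ^ d * (comp G SA v ∩ (A ∩ U)).card + 3 * s * 2 ^ d ≤
            2 ^ d * (A ∩ U).card + 3 * s * 3 ^ d) → ∀ S' : Finset V, S ⊆ S' → SA ⊆ S' →
          ∀ v ∈ A, v ∈ U → v ∉ S' →
          3 ^ (d + 1) * (comp G S' v ∩ U).card + 3 * s * 2 ^ (d + 1) ≤
            2 ^ (d + 1) * U.card + 3 * s * 3 ^ (d + 1) := by
        intro A B hsep hA SA hSA S' hSS hSAS v hvA hvU hvS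
        have h1 := hSA v (Finset.mem_inter.2 ⟨hvA, hvU⟩) (fun hh => hvS (hSAS hh))
        have h2 : comp G S' v ∩ U ⊆ comp G SA v ∩ (A ∩ U) := by
          intro u hu
          rw [Finset.mem_inter] at hu
          rw [Finset.mem_inter, Finset.mem_inter]
          exact ⟨comp_mono hSAS v hu.1, hsep.comp_subset hSS hvA hu.1, hu.2⟩
        have h3 := Nat.mul_le_mul_left (3 ^ d) (Finset.card_le_card h2)
        have h5 : 2 ^ d * (3 * (A ∩ U).card) ≤ 2 ^ d * (2 * U.card + 3 * s) :=
          Nat.mul_le_mul_left _ hA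
        rw [pow_succ, pow_succ]
        nlinarith
      intro v hv hvS
      rcases hsep.cover v with hvA | hvS' | hvB
      · exact main A B hsep hA SA hSA' _ Finset.subset_union_left
          (Finset.subset_union_left.trans Finset.subset_union_right) v hvA hv hvS
      · exact absurd (Finset.mem_union_left _ hvS') hvS
      · exact main B A hsep.symm hB SB hSB' _ Finset.subset_union_left
          (Finset.subset_union_right.trans Finset.subset_union_right) v hvB hv hvS

theorem frag_univ [Fintype V] {s : ℕ} (h : HS G s) (d : ℕ) :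
    ∃ S : Finset V, S.card ≤ s * 2 ^ d ∧ ∀ v, v ∉ S →
      3 ^ d * (comp G S v).card ≤ 2 ^ d * Fintype.card V + 3 * s * 3 ^ d := by
  obtain ⟨S, hS, hS'⟩ := frag h d Finset.univ
  refine ⟨S, by omega, ?_⟩
  intro v hv
  have := hS' v (Finset.mem_univ v) hv
  rw [Finset.inter_univ, Finset.card_univ] at this
  omega

end Pool.Agent.H41.Fire
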