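import Pool.Agent.H41.Fire.Sep.Witness
import Pool.Agent.H41.Fire.Strategy

/-! A separator can be protected in time when two vertices delay the fire long enough. -/

namespace Pool.Agent.H41.Fire

open Classical

set_option linter.unusedSectionVars false

universe u

variable {V : Type u} {G : SimpleGraph V}

/-- some walk of length `n` from `v` to `u` avoids `Z` -/
def WalkA (G : SimpleGraph V) (Z : Finset V) (v u : V) (n : ℕ) : Prop :=
  ∃ p : G.Walk v u, p.length = n ∧ ∀ x ∈ p.support, x ∉ Z

/-- distance from `v` in the graph without `Z` -/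
noncomputable def tau (G : SimpleGraph V) (Z : Finset V) (v u : V) : ℕ := sInf {n | WalkA G Z v u n}

theorem tau_spec {Z : Finset V} {v u : V} {n : ℕ} (h : WalkA G Z v u n) :
    WalkA G Z v u (tau G Z v u) := by
  have : (tau G Z v u) ∈ {n | WalkA G Z v u n} := Nat.sInf_mem ⟨n, h⟩
  exact this

theorem tau_le {Z : Finset V} {v u : V} {n : ℕ} (h : WalkA G Z v u n) : tau G Z v u ≤ n :=
  Nat.sInf_le h

theorem WalkA.step {Z : Finset V} {v u w : V} {n : ℕ} (h : WalkA G Z v u n) (hw : w ∉ Z)
    (ha : G.Adj u w) : WalkA G Z v w (n + 1) := by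
  obtain ⟨p, hp, hpZ⟩ := h
  refine ⟨p.concat ha, by rw [SimpleGraph.Walk.length_concat, hp], ?_⟩
  intro x hx
  rw [SimpleGraph.Walk.support_concat, List.mem_append, List.mem_singleton] at hx
  rcases hx with hx | hx
  · exact hpZ x hx
  · rw [hx]; exact hw

theorem order_Z {v : V} {Z : Finset V} (hZ : Allowed G v Z) : ∃ o1 o2 : Option V,
    (∀ w, o1 = some w → w ∈ Z) ∧ (∀ w, o2 = some w → w ∈ Z) ∧
    (∀ z ∈ Z, o1 = some z ∨ o2 = some z) ∧ ∀ z ∈ Z, G.Adj v z → o1 = some z := by
  obtain ⟨h1, h2, h3⟩ := hZ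
  have hc : Z.card = 0 ∨ Z.card = 1 ∨ Z.card = 2 := by omega
  rcases hc with hc | hc | hc
  · rw [Finset.card_eq_zero] at hc
    subst hc
    exact ⟨none, none, by simp, by simp, by simp, by simp⟩
  · obtain ⟨x, rfl⟩ := Finset.card_eq_one.1 hc
    exact ⟨some x, none, by simp, by simp, by simp, by simp⟩
  · obtain ⟨x, y, hxy, rfl⟩ := Finset.card_eq_two.1 hc
    by_cases hx : G.Adj v x
    · have hy : ¬ G.Adj v y := by
        intro hy
        apply h3
        refine ⟨hc, ?_⟩
        intro z hz
        rw [Finset.mem_insert, Finset.mem_singleton] at hz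
        rcases hz with rfl | rfl
        · exact hx
        · exact hy
      refine ⟨some x, some y, by simp, by simp, ?_, ?_⟩
      · intro z hz
        rw [Finset.mem_insert, Finset.mem_singleton] at hz
        rcases hz with rfl | rfl
        · exact Or.inl rfl
        · exact Or.inr rfl
      · intro z hz ha
        rw [Finset.mem_insert, Finset.mem_singleton] at hz
        rcases hz with rfl | rfl
        · rfl
        · exact absurd ha hy
    · refine ⟨some y, some x, by simp, by simp, ?_, ?_⟩
      · intro z hz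
        rw [Finset.mem_insert, Finset.mem_singleton] at hz
        rcases hz with rfl | rfl
        · exact Or.inr rfl
        · exact Or.inl rfl
      · intro z hz ha
        rw [Finset.mem_insert, Finset.mem_singleton] at hz
        rcases hz with rfl | rfl
        · exact absurd ha hx
        · rfl

theorem stay {A S B : Finset V} (hcov : ∀ x, x ∈ A ∨ x ∈ S ∨ x ∈ B)
    (hno : ∀ a ∈ A, ∀ b ∈ B, ¬ G.Adj a b) : ∀ {x y : V} (p : G.Walk x y),
    (∀ z ∈ p.support, z ∉ S) → x ∈ A → y ∈ A := by
  intro x y p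
  induction p with
  | nil => intro _ h; exact h
  | @cons a b c hadj q ih =>
    intro hp ha
    rw [SimpleGraph.Walk.support_cons] at hp
    apply ih (fun z hz => hp z (List.mem_cons_of_mem _ hz))
    rcases hcov b with h | h | h
    · exact h
    · exact absurd h (hp b (List.mem_cons_of_mem _ q.start_mem_support))
    · exact absurd hadj (hno a ha b h)

theorem save {A S B Z : Finset V} {v : V} {s J : ℕ} (hS : S.card ≤ s) (hJ : s + 1 ≤ J)
    (hcov : ∀ x, x ∈ A ∨ x ∈ S ∨ x ∈ B) (hAB : ∀ x ∈ A, x ∉ B)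
    (hno : ∀ a ∈ A, ∀ b ∈ B, ¬ G.Adj a b) (hv : v ∈ A) (hvS : v ∉ S)
    (hZ : Allowed G v Z) (hr : ¬ Reach G S J v Z) : CanSave G v (B : Set V) := by
  obtain ⟨o1, o2, ho1, ho2, ho12, hadj1⟩ := order_Z hZ
  set E : Set V := {u | ∃ p : G.Walk v u, ∀ x ∈ p.support, x ∉ Z ∪ S} with hE
  have hmE : ∀ u, u ∈ E ↔ ∃ p : G.Walk v u, ∀ x ∈ p.support, x ∉ Z ∪ S := fun u => Iff.rfl
  have hvE : v ∈ E := by
    rw [hmE]
    refine ⟨SimpleGraph.Walk.nil, ?_⟩
    intro x hx
    rw [SimpleGraph.Walk.support_nil, List.mem_singleton] at hx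
    rw [hx, Finset.mem_union]
    exact fun h => h.elim hZ.2.1 hvS
  have hEZS : ∀ u ∈ E, u ∉ Z ∧ u ∉ S := by
    intro u hu
    obtain ⟨p, hp⟩ := (hmE u).1 hu
    have := hp u p.end_mem_support
    rw [Finset.mem_union] at this
    exact ⟨fun h => this (Or.inl h), fun h => this (Or.inr h)⟩
  have hEstep : ∀ a ∈ E, ∀ b, G.Adj a b → b ∉ Z → b ∉ S → b ∈ E := by
    intro a ha b hab hbZ hbS
    obtain ⟨p, hp⟩ := (hmE a).1 ha
    rw [hmE]
    refine ⟨p.concat hab, ?_⟩
    intro x hx
    rw [SimpleGraph.Walk.support_concat, List.mem_append, List.mem_singleton] at hx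
    rcases hx with hx | hx
    · exact hp x hx
    · rw [hx, Finset.mem_union]
      exact fun h => h.elim hbZ hbS
  have hEW : ∀ u ∈ E, WalkA G Z v u (tau G Z v u) := by
    intro u hu
    obtain ⟨p, hp⟩ := (hmE u).1 hu
    apply tau_spec (n := p.length)
    refine ⟨p, rfl, fun x hx h => hp x hx (Finset.mem_union_left _ h)⟩
  have h0 : tau G Z v v = 0 := by
    apply Nat.eq_zero_of_le_zero
    apply tau_le
    refine ⟨SimpleGraph.Walk.nil, rfl, ?_⟩
    intro x hx
    rw [SimpleGraph.Walk.support_nil, List.mem_singleton] at hx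
    rw [hx]; exact hZ.2.1
  refine (barrier (G := G) (v := v) (E := E) (τ := tau G Z v)
    (q := fun t => if t = 1 then o1 else if t = 2 then o2 else S.toList[t - 3]?) hvE h0
    ?_ ?_ ?_).mono ?_
  · intro a ha b hb hab
    exact tau_le ((hEW a ha).step (hEZS b hb).1 hab)
  · intro t w h hwE
    obtain ⟨h1, h2⟩ := hEZS w hwE
    split_ifs at h with c1 c2
    · exact h1 (ho1 w h)
    · exact h1 (ho2 w h)
    · exact h2 (Finset.mem_toList.1 (List.mem_of_getElem? h))
  · intro a ha b hb hab
    by_cases hbZ : b ∈ Z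
    · rcases ho12 b hbZ with h | h
      · exact ⟨1, le_refl _, by omega, by simp [h]⟩
      · by_cases hva : tau G Z v a = 0
        · have hw := hEW a ha
          rw [hva] at hw
          obtain ⟨p, hp, -⟩ := hw
          have hva' : v = a := SimpleGraph.Walk.eq_of_length_eq_zero hp
          have := hadj1 b hbZ (by rw [hva']; exact hab)
          exact ⟨1, le_refl _, by omega, by simp [this]⟩
        · exact ⟨2, by omega, by omega, by simp [h]⟩
    · have hbS : b ∈ S := by
        by_contra hbS
        exact hb (hEstep a ha b hab hbZ hbS)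
      have hlong : J ≤ tau G Z v a := by
        by_contra hcon
        push Not at hcon
        apply hr
        obtain ⟨p, hp, hpZ⟩ := (hEW a ha).step hbZ hab
        exact ⟨b, hbS, p, by omega, hpZ⟩
      obtain ⟨i, hi⟩ := List.mem_iff_getElem?.1 (Finset.mem_toList.2 hbS)
      have hi' : i < S.card := by
        have := (List.getElem?_eq_some_iff.1 hi).1
        rwa [Finset.length_toList] at this
      refine ⟨3 + i, by omega, by omega, ?_⟩
      rw [if_neg (by omega), if_neg (by omega), Nat.add_sub_cancel_left]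
      exact hi
  · intro x hx hxE
    obtain ⟨p, hp⟩ := (hmE x).1 hxE
    have : x ∈ A := stay hcov hno p (fun z hz h => hp z hz (Finset.mem_union_right _ h)) hv
    exact hAB x this hx

end Pool.Agent.H41.Fire
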