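import Mathlib

/-! A sunflower lemma for indexed families. -/

namespace Pool.Agent.H41.Fire

open Classical

universe u v

variable {V : Type u} {ι : Type v}

/-- bound in the sunflower lemma -/
def sunN (m : ℕ) : ℕ → ℕ
  | 0 => m
  | w + 1 => m + (m * (w + 1)) * sunN m w + 1

/-- Sunflower lemma. -/
theorem sunflower (m : ℕ) : ∀ (w : ℕ) (I : Finset ι) (U : ι → Finset V),
    (∀ i ∈ I, (U i).card ≤ w) → sunN m w ≤ I.card →
    ∃ I' ⊆ I, ∃ K : Finset V, I'.card = m ∧ (∀ i ∈ I', K ⊆ U i) ∧
      ∀ i ∈ I', ∀ j ∈ I', i ≠ j → U i ∩ U j = K := by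
  intro w
  induction w with
  | zero =>
    intro I U hU hI
    obtain ⟨I', hI', hc⟩ := Finset.exists_subset_card_eq hI
    refine ⟨I', hI', ∅, hc, fun i _ => Finset.empty_subset _, ?_⟩
    intro i hi j _ _
    have h1 := hU i (hI' hi)
    have h2 : U i = ∅ := Finset.card_eq_zero.1 (by omega)
    rw [h2, Finset.empty_inter]
  | succ w ih =>
    intro I U hU hI
    set N := sunN m w with hNdef
    have hI0 : m + (m * (w + 1)) * N + 1 ≤ I.card := hI
    -- a maximal subfamily of pairwise disjoint sets
    set Q : Finset (Finset ι) := I.powerset.filter fun J => ∀ i ∈ J, ∀ j ∈ J, i ≠ j →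
      Disjoint (U i) (U j) with hQ
    have hQne : Q.Nonempty := ⟨∅, by simp [hQ]⟩
    obtain ⟨J, hJ, hmax⟩ := Finset.exists_max_image Q Finset.card hQne
    rw [hQ, Finset.mem_filter, Finset.mem_powerset] at hJ
    rcases Nat.lt_or_ge J.card m with hlt | hge
    · -- few: some element is in many sets
      set X : Finset V := J.biUnion U with hX
      have hXc : X.card ≤ m * (w + 1) := by
        refine Finset.card_biUnion_le.trans ?_
        refine (Finset.sum_le_sum fun i hi => hU i (hJ.1 hi)).trans ?_
        rw [Finset.sum_const, smul_eq_mul]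
        exact Nat.mul_le_mul hlt.le (le_refl _)
      have hmeet : ∀ i ∈ I \ J, ∃ x ∈ X, x ∈ U i := by
        intro i hi
        rw [Finset.mem_sdiff] at hi
        by_contra hcon
        push Not at hcon
        have h1 : insert i J ∈ Q := by
          rw [hQ, Finset.mem_filter, Finset.mem_powerset]
          refine ⟨Finset.insert_subset hi.1 hJ.1, ?_⟩
          intro a ha b hb hab
          rw [Finset.mem_insert] at ha hb
          rcases ha with rfl | ha
          · rcases hb with rfl | hb
            · exact absurd rfl hab
            · rw [Finset.disjoint_left]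
              intro x hx hx'
              exact hcon x (Finset.mem_biUnion.2 ⟨b, hb, hx'⟩) hx
          · rcases hb with rfl | hb
            · rw [Finset.disjoint_right]
              intro x hx hx'
              exact hcon x (Finset.mem_biUnion.2 ⟨a, ha, hx'⟩) hx
            · exact hJ.2 a ha b hb hab
        have h2 := hmax _ h1
        rw [Finset.card_insert_of_notMem hi.2] at h2
        omega
      -- pigeonhole
      have hex : ∃ x ∈ X, N ≤ ((I \ J).filter fun i => x ∈ U i).card := by
        by_contra hcon
        push Not at hcon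
        have h1 : (I \ J) ⊆ X.biUnion fun x => (I \ J).filter fun i => x ∈ U i := by
          intro i hi
          obtain ⟨x, hx, hxi⟩ := hmeet i hi
          exact Finset.mem_biUnion.2 ⟨x, hx, Finset.mem_filter.2 ⟨hi, hxi⟩⟩
        have h2 : (I \ J).card ≤ X.card * N := by
          refine (Finset.card_le_card h1).trans ?_
          refine Finset.card_biUnion_le.trans ?_
          refine (Finset.sum_le_sum fun x hx => (hcon x hx).le).trans ?_
          rw [Finset.sum_const, smul_eq_mul]
        have h3 : I.card ≤ (I \ J).card + J.card := by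
          have := Finset.le_card_sdiff J I
          omega
        have h4 : X.card * N ≤ m * (w + 1) * N := Nat.mul_le_mul hXc (le_refl _)
        omega
      obtain ⟨x, hx, hxN⟩ := hex
      set I1 := (I \ J).filter fun i => x ∈ U i with hI1
      obtain ⟨I', hI', K, hc, hK, hpair⟩ := ih I1 (fun i => (U i).erase x) (by
        intro i hi
        rw [hI1, Finset.mem_filter, Finset.mem_sdiff] at hi
        rw [Finset.card_erase_of_mem hi.2]
        have := hU i hi.1.1
        omega) hxN
      have hxU : ∀ i ∈ I', x ∈ U i := fun i hi => (Finset.mem_filter.1 (hI' hi)).2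
      refine ⟨I', fun i hi => (Finset.mem_sdiff.1 (Finset.mem_filter.1 (hI' hi)).1).1,
        insert x K, hc, ?_, ?_⟩
      · intro i hi
        rw [Finset.insert_subset_iff]
        exact ⟨hxU i hi, (hK i hi).trans (Finset.erase_subset _ _)⟩
      · intro i hi j hj hij
        rw [← hpair i hi j hj hij]
        ext y
        simp only [Finset.mem_inter, Finset.mem_insert, Finset.mem_erase]
        constructor
        · rintro ⟨h1, h2⟩
          by_cases hy : y = x
          · exact Or.inl hy
          · exact Or.inr ⟨⟨hy, h1⟩, ⟨hy, h2⟩⟩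
        · rintro (h | ⟨⟨_, h1⟩, ⟨_, h2⟩⟩)
          · rw [h]; exact ⟨hxU i hi, hxU j hj⟩
          · exact ⟨h1, h2⟩
    · -- many disjoint sets
      obtain ⟨I', hI', hc⟩ := Finset.exists_subset_card_eq hge
      refine ⟨I', hI'.trans hJ.1, ∅, hc, fun i _ => Finset.empty_subset _, ?_⟩
      intro i hi j hj hij
      exact Finset.disjoint_iff_inter_eq_empty.1 (hJ.2 i (hI' hi) j (hI' hj) hij)

end Pool.Agent.H41.Fire
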