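import Pool.Agent.H41.Fire.Sep.Growth

/-! Graphs of bounded treewidth have small balanced separators. -/

namespace Pool.Agent.H41.Fire

open Classical

set_option linter.unusedSectionVars false

universe u

variable {V : Type u} {G : SimpleGraph V}

/-- `(T, bag)` is a tree decomposition of `G` of width at most `k`. -/
structure TreeDec (G : SimpleGraph V) (k : ℕ) {ι : Type} (T : SimpleGraph ι)
    (bag : ι → Finset V) : Prop where
  tree : T.IsTree
  card_le : ∀ i, (bag i).card ≤ k + 1
  cover : ∀ x, ∃ i, x ∈ bag i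
  edge : ∀ x y, G.Adj x y → ∃ i, x ∈ bag i ∧ y ∈ bag i
  conn : ∀ x, (T.induce {i | x ∈ bag i}).Preconnected

variable {ι : Type} {T : SimpleGraph ι} {bag : ι → Finset V} {k : ℕ}

/-- `L` is a union of components of `T` minus `i` -/
def ClosedAt (T : SimpleGraph ι) (i : ι) (L : Set ι) : Prop :=
  i ∉ L ∧ ∀ a ∈ L, ∀ b, T.Adj a b → b ≠ i → b ∈ L

/-- vertices seen in `L` only -/
noncomputable def seen [Fintype V] (bag : ι → Finset V) (i : ι) (L : Set ι) : Finset V :=
  Finset.univ.filter fun x => x ∉ bag i ∧ ∃ l ∈ L, x ∈ bag l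

theorem mem_seen [Fintype V] {i : ι} {L : Set ι} {x : V} :
    x ∈ seen bag i L ↔ x ∉ bag i ∧ ∃ l ∈ L, x ∈ bag l := by
  unfold seen
  rw [Finset.mem_filter]
  exact ⟨fun h => h.2, fun h => ⟨Finset.mem_univ _, h⟩⟩

theorem TreeDec.stay (h : TreeDec G k T bag) {i : ι} {L : Set ι} (hL : ClosedAt T i L) {x : V}
    (hx : x ∉ bag i) {l l' : ι} (hl : l ∈ L) (hxl : x ∈ bag l) (hxl' : x ∈ bag l') : l' ∈ L := by
  obtain ⟨p⟩ := h.conn x ⟨l, hxl⟩ ⟨l', hxl'⟩
  have key : ∀ {a b : {i | x ∈ bag i}} (q : (T.induce {i | x ∈ bag i}).Walk a b),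
      a.1 ∈ L → b.1 ∈ L := by
    intro a b q
    induction q with
    | nil => exact fun h => h
    | @cons a b c hadj q ih =>
      intro ha
      apply ih
      apply hL.2 a.1 ha b.1 hadj
      intro hb
      apply hx
      rw [← hb]
      exact b.2
  exact key p hl

theorem TreeDec.no_edge [Fintype V] (h : TreeDec G k T bag) {i : ι} {L : Set ι}
    (hL : ClosedAt T i L) {x y : V} (hx : x ∈ seen bag i L) (hy : y ∉ bag i)
    (hy' : y ∉ seen bag i L) : ¬ G.Adj x y := by
  intro hxy
  rw [mem_seen] at hx hy'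
  obtain ⟨hx1, l, hl, hxl⟩ := hx
  obtain ⟨l0, h1, h2⟩ := h.edge x y hxy
  exact hy' ⟨hy, l0, h.stay hL hx1 hl hxl h1, h2⟩

theorem TreeDec.sep [Fintype V] (h : TreeDec G k T bag) {i : ι} {L : Set ι}
    (hL : ClosedAt T i L) :
    Separation G (seen bag i L) (bag i) (Finset.univ \ (bag i ∪ seen bag i L)) := by
  refine ⟨?_, ?_, ?_, ?_, ?_⟩
  · intro x
    by_cases h1 : x ∈ seen bag i L
    · exact Or.inl h1
    · by_cases h2 : x ∈ bag i
      · exact Or.inr (Or.inl h2)
      · right; right
        rw [Finset.mem_sdiff, Finset.mem_union]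
        exact ⟨Finset.mem_univ _, fun h => h.elim h2 h1⟩
  · rw [Finset.disjoint_left]
    intro x hx
    exact (mem_seen.1 hx).1
  · rw [Finset.disjoint_left]
    intro x hx hx'
    rw [Finset.mem_sdiff, Finset.mem_union] at hx'
    exact hx'.2 (Or.inl hx)
  · rw [Finset.disjoint_left]
    intro x hx hx'
    rw [Finset.mem_sdiff, Finset.mem_union] at hx'
    exact hx'.2 (Or.inr hx)
  · intro a ha b hb
    rw [Finset.mem_sdiff, Finset.mem_union] at hb
    exact h.no_edge hL ha (fun h => hb.2 (Or.inl h)) (fun h => hb.2 (Or.inr h))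

theorem TreeDec.HS [Fintype V] [Finite ι] (h : TreeDec G k T bag) : HS G (k + 1) := by
  intro U
  -- weights
  have hcomp : ∀ i L, ((Finset.univ \ (bag i ∪ seen bag i L)) ∩ U).card +
      (seen bag i L ∩ U).card ≤ U.card := by
    intro i L
    rw [← Finset.card_union_of_disjoint]
    · apply Finset.card_le_card
      intro x hx
      rw [Finset.mem_union, Finset.mem_inter, Finset.mem_inter] at hx
      rcases hx with hx | hx
      · exact hx.2
      · exact hx.2
    · rw [Finset.disjoint_left]
      intro x hx hx'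
      rw [Finset.mem_inter, Finset.mem_sdiff, Finset.mem_union] at hx
      rw [Finset.mem_inter] at hx'
      exact hx.1.2 (Or.inr hx'.1)
  by_cases hex : ∃ l, ∃ (i : ι) (L : Set ι), ClosedAt T i L ∧ L.ncard = l ∧
      2 * U.card < 3 * (seen bag i L ∩ U).card
  · obtain ⟨i, L, hL, hc, hw⟩ := Nat.find_spec hex
    have hmin : ∀ i' L', ClosedAt T i' L' → L'.ncard < L.ncard →
        3 * (seen bag i' L' ∩ U).card ≤ 2 * U.card := by
      intro i' L' h1 h2
      by_contra h3
      push Not at h3
      rw [hc] at h2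
      exact Nat.find_min hex h2 ⟨i', L', h1, rfl, h3⟩
    -- a neighbour of `i` in `L`
    have hLne : L.Nonempty := by
      by_contra hcon
      rw [Set.not_nonempty_iff_eq_empty] at hcon
      have : (seen bag i L ∩ U).card = 0 := by
        rw [Finset.card_eq_zero, Finset.eq_empty_iff_forall_notMem]
        intro x hx
        rw [Finset.mem_inter, mem_seen, hcon] at hx
        obtain ⟨⟨_, l, hl, _⟩, _⟩ := hx
        exact hl
      omega
    obtain ⟨j, hjL, hij⟩ : ∃ j ∈ L, T.Adj j i := by
      obtain ⟨l, hl⟩ := hLne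
      obtain ⟨p⟩ := h.tree.connected.preconnected l i
      have key : ∀ {a b : ι} (q : T.Walk a b), a ∈ L → b ∉ L → ∃ j ∈ L, T.Adj j i := by
        intro a b q
        induction q with
        | nil => intro h1 h2; exact absurd h1 h2
        | @cons a b c hadj q ih =>
          intro ha hcL
          by_cases hb : b ∈ L
          · exact ih hb hcL
          · by_cases hbi : b = i
            · exact ⟨a, ha, by rw [← hbi]; exact hadj⟩
            · exact absurd (hL.2 a ha b hadj hbi) hb
      exact key p hl hL.1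
    set L1 : Set ι := {l | ∃ p : T.Walk j l, i ∉ p.support} with hL1
    have hjL1 : j ∈ L1 := by
      refine ⟨SimpleGraph.Walk.nil, ?_⟩
      rw [SimpleGraph.Walk.support_nil, List.mem_singleton]
      exact hij.ne'
    have hL1L : L1 ⊆ L := by
      rintro l ⟨p, hp⟩
      have key : ∀ {a b : ι} (q : T.Walk a b), i ∉ q.support → a ∈ L → b ∈ L := by
        intro a b q
        induction q with
        | nil => exact fun _ h => h
        | @cons a b c hadj q ih =>
          intro hi ha
          rw [SimpleGraph.Walk.support_cons, List.mem_cons, not_or] at hi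
          refine ih hi.2 (hL.2 a ha b hadj ?_)
          rintro rfl
          exact hi.2 q.start_mem_support
      exact key p hp hjL
    have hL1c : ClosedAt T i L1 := by
      refine ⟨fun hi => hL.1 (hL1L hi), ?_⟩
      rintro a ⟨p, hp⟩ b hab hbi
      refine ⟨p.concat hab, ?_⟩
      rw [SimpleGraph.Walk.support_concat, List.mem_append, List.mem_singleton, not_or]
      exact ⟨hp, fun h => hbi h.symm⟩
    by_cases hL2 : (L \ L1).Nonempty
    · -- split
      have hL2c : ClosedAt T i (L \ L1) := by
        refine ⟨fun hi => hL.1 hi.1, ?_⟩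
        intro a ha b hab hbi
        refine ⟨hL.2 a ha.1 b hab hbi, fun hb => ha.2 ?_⟩
        exact hL1c.2 b hb a hab.symm (fun h => hL.1 (h ▸ ha.1))
      have hn1 : L1.ncard < L.ncard := by
        apply Set.ncard_lt_ncard _ (Set.toFinite _)
        refine ⟨hL1L, fun hsub => ?_⟩
        obtain ⟨x, hx⟩ := hL2
        exact hx.2 (hsub hx.1)
      have hn2 : (L \ L1).ncard < L.ncard := by
        apply Set.ncard_lt_ncard _ (Set.toFinite _)
        refine ⟨Set.sdiff_subset, fun hsub => ?_⟩
        exact (hsub hjL).2 hjL1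
      have h1 := hmin i L1 hL1c hn1
      have h2 := hmin i (L \ L1) hL2c hn2
      have h3 : (seen bag i L ∩ U).card ≤
          (seen bag i L1 ∩ U).card + (seen bag i (L \ L1) ∩ U).card := by
        refine le_trans (Finset.card_le_card ?_) (Finset.card_union_le _ _)
        intro x hx
        rw [Finset.mem_inter, mem_seen] at hx
        obtain ⟨⟨hx1, l, hl, hxl⟩, hxU⟩ := hx
        rw [Finset.mem_union, Finset.mem_inter, Finset.mem_inter, mem_seen, mem_seen]
        by_cases hl1 : l ∈ L1
        · exact Or.inl ⟨⟨hx1, l, hl1, hxl⟩, hxU⟩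
        · exact Or.inr ⟨⟨hx1, l, ⟨hl, hl1⟩, hxl⟩, hxU⟩
      have h4 := hcomp i L1
      have h5 := hcomp i (L \ L1)
      rcases le_total (seen bag i L1 ∩ U).card (seen bag i (L \ L1) ∩ U).card with h6 | h6
      · exact ⟨_, _, _, h.sep hL2c, h.card_le i, by omega, by omega⟩
      · exact ⟨_, _, _, h.sep hL1c, h.card_le i, by omega, by omega⟩
    · -- move
      have hLL1 : L ⊆ L1 := by
        intro l hl
        by_contra h1
        exact hL2 ⟨l, hl, h1⟩
      have huniq : ∀ a ∈ L, T.Adj a i → a = j := by
        intro a ha hai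
        by_contra hne
        obtain ⟨p, hp⟩ := hLL1 ha
        set q1 : T.Walk j a := SimpleGraph.Walk.cons hij (SimpleGraph.Walk.cons hai.symm
          SimpleGraph.Walk.nil) with hq1
        have hq1p : q1.IsPath := by
          rw [hq1, SimpleGraph.Walk.cons_isPath_iff, SimpleGraph.Walk.cons_isPath_iff]
          refine ⟨⟨SimpleGraph.Walk.IsPath.nil, ?_⟩, ?_⟩
          · rw [SimpleGraph.Walk.support_nil, List.mem_singleton]
            exact hai.ne'
          · rw [SimpleGraph.Walk.support_cons, SimpleGraph.Walk.support_nil, List.mem_cons,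
              List.mem_singleton, not_or]
            exact ⟨hij.ne, fun h => hne h.symm⟩
        have h1 : (⟨q1, hq1p⟩ : T.Path j a) = p.toPath :=
          (h.tree.isAcyclic.subsingleton_path j a).elim _ _
        have h2 : i ∈ (⟨q1, hq1p⟩ : T.Path j a).1.support := by
          show i ∈ q1.support
          rw [hq1, SimpleGraph.Walk.support_cons]
          exact List.mem_cons_of_mem _ (SimpleGraph.Walk.start_mem_support _)
        rw [h1] at h2
        exact hp (SimpleGraph.Walk.support_toPath_subset_support p h2)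
      have hL' : ClosedAt T j (L \ {j}) := by
        refine ⟨fun hj => hj.2 rfl, ?_⟩
        intro a ha b hab hbj
        refine ⟨hL.2 a ha.1 b hab ?_, hbj⟩
        rintro rfl
        exact ha.2 (huniq a ha.1 hab)
      have hn : (L \ {j}).ncard < L.ncard := by
        apply Set.ncard_lt_ncard _ (Set.toFinite _)
        refine ⟨Set.sdiff_subset, fun hsub => ?_⟩
        exact (hsub hjL).2 rfl
      have h1 := hmin j (L \ {j}) hL' hn
      have h2 : (seen bag i L ∩ U).card ≤ (seen bag j (L \ {j}) ∩ U).card + (bag j).card := by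
        refine le_trans (Finset.card_le_card ?_) (Finset.card_union_le _ _)
        intro x hx
        rw [Finset.mem_inter, mem_seen] at hx
        obtain ⟨⟨hx1, l, hl, hxl⟩, hxU⟩ := hx
        rw [Finset.mem_union, Finset.mem_inter, mem_seen]
        by_cases hxj : x ∈ bag j
        · exact Or.inr hxj
        · left
          refine ⟨⟨hxj, l, ⟨hl, ?_⟩, hxl⟩, hxU⟩
          rintro rfl
          exact hxj hxl
      have h3 := h.card_le j
      have h4 := hcomp j (L \ {j})
      exact ⟨_, _, _, h.sep hL', h.card_le j, by omega, by omega⟩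
  · push Not at hex
    obtain ⟨i0⟩ : Nonempty ι := h.tree.connected.nonempty
    have hcl : ClosedAt T i0 {i0}ᶜ := ⟨by simp, fun a _ b _ hb => by simpa using hb⟩
    have h1 := hex _ i0 _ hcl rfl
    have h2 : (Finset.univ \ (bag i0 ∪ seen bag i0 {i0}ᶜ)) ∩ U = ∅ := by
      rw [Finset.eq_empty_iff_forall_notMem]
      intro x hx
      rw [Finset.mem_inter, Finset.mem_sdiff, Finset.mem_union, not_or] at hx
      obtain ⟨l, hl⟩ := h.cover x
      apply hx.1.2.2
      rw [mem_seen]
      refine ⟨hx.1.2.1, l, ?_, hl⟩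
      rw [Set.mem_compl_iff, Set.mem_singleton_iff]
      rintro rfl
      exact hx.1.2.1 hl
    refine ⟨_, _, _, h.sep hcl, h.card_le i0, by omega, ?_⟩
    rw [h2, Finset.card_empty]
    omega

end Pool.Agent.H41.Fire
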