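import Pool.Agent.H41.Fire.Sep.Sunflower
import Pool.Agent.H41.Fire.Sep.K33

/-!
All but boundedly many vertices can be cut off from a bounded set, for walks of bounded length, by
two vertices.
-/

namespace Pool.Agent.H41.Fire

open Classical

set_option linter.unusedSectionVars false

universe u

variable {V : Type u} {G : SimpleGraph V}

/-- some walk of length at most `J` from `v` to `S` avoids `Z` -/
def Reach (G : SimpleGraph V) (S : Finset V) (J : ℕ) (v : V) (Z : Finset V) : Prop :=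
  ∃ s0 ∈ S, ∃ p : G.Walk v s0, p.length ≤ J ∧ ∀ x ∈ p.support, x ∉ Z

/-- sets that can be protected in the first two steps -/
def Allowed (G : SimpleGraph V) (v : V) (Z : Finset V) : Prop :=
  Z.card ≤ 2 ∧ v ∉ Z ∧ ¬ (Z.card = 2 ∧ ∀ z ∈ Z, G.Adj v z)

/-- any two distinct vertices have fewer than `m` common neighbours -/
def NoK2 (G : SimpleGraph V) (m : ℕ) : Prop := ∀ x y : V, x ≠ y → ∀ D : Finset V,
  (∀ a ∈ D, G.Adj a x ∧ G.Adj a y) → D.card < m

theorem witness {S : Finset V} {J : ℕ} {v : V} (hbad : ∀ Z, Allowed G v Z → Reach G S J v Z) :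
    ∃ W : Finset V, v ∈ W ∧ W.card ≤ (J + 1) + (J + 1) * ((J + 1) + (J + 1) * (J + 1)) ∧
      ∀ Z, Allowed G v Z → ∃ s0 ∈ S, ∃ p : G.Walk v s0, ∀ x ∈ p.support, x ∈ W ∧ x ∉ Z := by
  have hex : ∀ Z : Finset V, ∃ T : Finset V, T.card ≤ J + 1 ∧ (Allowed G v Z → v ∈ T ∧
      (∀ x ∈ T, x ∉ Z) ∧ ∃ s0 ∈ S, ∃ p : G.Walk v s0, ∀ x ∈ p.support, x ∈ T) := by
    intro Z
    by_cases hZ : Allowed G v Z
    · obtain ⟨s0, hs0, p, hp, hpZ⟩ := hbad Z hZ
      refine ⟨p.support.toFinset, ?_, fun _ => ⟨?_, ?_, s0, hs0, p, ?_⟩⟩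
      · refine (List.toFinset_card_le _).trans ?_
        rw [SimpleGraph.Walk.length_support]
        omega
      · rw [List.mem_toFinset]; exact p.start_mem_support
      · intro x hx
        rw [List.mem_toFinset] at hx
        exact hpZ x hx
      · intro x hx
        rw [List.mem_toFinset]; exact hx
    · exact ⟨∅, by simp, fun h => absurd h hZ⟩
  choose T hTc hT using hex
  have h0 : Allowed G v ∅ := ⟨by simp, by simp, by simp⟩
  refine ⟨T ∅ ∪ (T ∅).biUnion (fun p => T {p} ∪ (T {p}).biUnion (fun x => T {p, x})), ?_, ?_, ?_⟩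
  · exact Finset.mem_union_left _ (hT ∅ h0).1
  · refine (Finset.card_union_le _ _).trans (Nat.add_le_add (hTc _) ?_)
    refine Finset.card_biUnion_le.trans ?_
    refine (Finset.sum_le_sum (g := fun _ => (J + 1) + (J + 1) * (J + 1)) ?_).trans ?_
    · intro p _
      refine (Finset.card_union_le _ _).trans (Nat.add_le_add (hTc _) ?_)
      refine Finset.card_biUnion_le.trans ?_
      refine (Finset.sum_le_sum (g := fun _ => J + 1) fun x _ => hTc _).trans ?_
      rw [Finset.sum_const, smul_eq_mul]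
      exact Nat.mul_le_mul (hTc _) (le_refl _)
    · rw [Finset.sum_const, smul_eq_mul]
      exact Nat.mul_le_mul (hTc _) (le_refl _)
  · intro Z hZ
    by_cases c0 : Disjoint Z (T ∅)
    · obtain ⟨s0, hs0, p, hp⟩ := (hT ∅ h0).2.2
      exact ⟨s0, hs0, p, fun x hx => ⟨Finset.mem_union_left _ (hp x hx),
        fun h => Finset.disjoint_left.1 c0 h (hp x hx)⟩⟩
    · rw [Finset.not_disjoint_iff] at c0
      obtain ⟨p, hpZ, hpT⟩ := c0
      have hp1 : Allowed G v {p} := ⟨by simp, by
        rw [Finset.mem_singleton]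
        rintro rfl
        exact hZ.2.1 hpZ, by simp⟩
      have hsub : T {p} ∪ (T {p}).biUnion (fun x => T {p, x}) ⊆
          T ∅ ∪ (T ∅).biUnion (fun p => T {p} ∪ (T {p}).biUnion (fun x => T {p, x})) := by
        intro y hy
        exact Finset.mem_union_right _ (Finset.mem_biUnion.2 ⟨p, hpT, hy⟩)
      by_cases c1 : Disjoint Z (T {p})
      · obtain ⟨s0, hs0, w, hw⟩ := (hT _ hp1).2.2
        exact ⟨s0, hs0, w, fun x hx => ⟨hsub (Finset.mem_union_left _ (hw x hx)),
          fun h => Finset.disjoint_left.1 c1 h (hw x hx)⟩⟩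
      · rw [Finset.not_disjoint_iff] at c1
        obtain ⟨x, hxZ, hxT⟩ := c1
        have hxp : p ≠ x := by
          rintro rfl
          exact (hT _ hp1).2.1 p hxT (Finset.mem_singleton_self _)
        have hZe : ({p, x} : Finset V) = Z := by
          apply Finset.eq_of_subset_of_card_le
          · intro y hy
            rw [Finset.mem_insert, Finset.mem_singleton] at hy
            rcases hy with rfl | rfl
            · exact hpZ
            · exact hxZ
          · rw [Finset.card_pair hxp]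
            exact hZ.1
        obtain ⟨-, hav, s0, hs0, w, hw⟩ := hT _ (by rw [hZe]; exact hZ : Allowed G v {p, x})
        refine ⟨s0, hs0, w, fun y hy => ⟨hsub (Finset.mem_union_right _
          (Finset.mem_biUnion.2 ⟨x, hxT, hw y hy⟩)), ?_⟩⟩
        have := hav y (hw y hy)
        rwa [hZe] at this

/-- the part of the petal that contains `v` -/
noncomputable def petal (G : SimpleGraph V) (A : Finset V) (v : V) : Finset V :=
  A.filter fun x => ∃ p : G.Walk v x, ∀ y ∈ p.support, y ∈ A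

theorem mem_petal {A : Finset V} {v x : V} :
    x ∈ petal G A v ↔ x ∈ A ∧ ∃ p : G.Walk v x, ∀ y ∈ p.support, y ∈ A := by
  unfold petal
  exact Finset.mem_filter

theorem petal_self {A : Finset V} {v : V} (hv : v ∈ A) : v ∈ petal G A v := by
  rw [mem_petal]
  refine ⟨hv, SimpleGraph.Walk.nil, ?_⟩
  intro y hy
  rw [SimpleGraph.Walk.support_nil, List.mem_singleton] at hy
  rw [hy]; exact hv

theorem petal_step {A : Finset V} {v x y : V} (hx : x ∈ petal G A v) (hxy : G.Adj x y)
    (hy : y ∈ A) : y ∈ petal G A v := by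
  rw [mem_petal] at hx ⊢
  obtain ⟨_, p, hp⟩ := hx
  refine ⟨hy, p.concat hxy, ?_⟩
  intro z hz
  rw [SimpleGraph.Walk.support_concat, List.mem_append, List.mem_singleton] at hz
  rcases hz with hz | hz
  · exact hp z hz
  · rw [hz]; exact hy

/-- a walk from inside `T` to outside crosses the boundary, inside the petal -/
theorem cross_walk {A T : Finset V} {v : V} : ∀ {x y : V} (p : G.Walk x y),
    (∀ z ∈ p.support, z ∈ A) → x ∈ petal G A v → x ∈ T → y ∉ T →
    ∃ a ∈ T, ∃ b ∈ petal G A v, b ∉ T ∧ G.Adj a b := by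
  intro x y p
  induction p with
  | nil => intro _ _ h1 h2; exact absurd h1 h2
  | @cons a b c hadj q ih =>
    intro hA hx hxT hyT
    rw [SimpleGraph.Walk.support_cons] at hA
    have hb : b ∈ petal G A v := petal_step hx hadj
      (hA _ (List.mem_cons_of_mem _ q.start_mem_support))
    by_cases hbT : b ∈ T
    · exact ih (fun z hz => hA z (List.mem_cons_of_mem _ hz)) hb hbT hyT
    · exact ⟨a, hxT, b, hb, hbT, hadj⟩

theorem petal_conn {A : Finset V} {v : V} (hv : v ∈ A) : Conn G (petal G A v) := by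
  refine ⟨⟨v, petal_self hv⟩, ?_⟩
  intro T hT hne hTne
  obtain ⟨z, hz, hzT⟩ : ∃ z ∈ petal G A v, z ∉ T := by
    by_contra hcon
    push Not at hcon
    exact hTne (Finset.Subset.antisymm hT hcon)
  obtain ⟨y, hy⟩ := hne
  by_cases hvT : v ∈ T
  · obtain ⟨_, p, hp⟩ := mem_petal.1 hz
    obtain ⟨a, ha, b, hb, hbT, hab⟩ := cross_walk p hp (petal_self hv) hvT hzT
    exact ⟨a, ha, b, hb, hbT, hab.symm⟩
  · obtain ⟨_, p, hp⟩ := mem_petal.1 (hT hy)
    obtain ⟨a, ha, b, hb, hbT, hab⟩ := cross_walk (G := G) (A := A) (v := v)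
      (T := (petal G A v) \ T) p hp (petal_self hv)
      (Finset.mem_sdiff.2 ⟨petal_self hv, hvT⟩) (fun h => (Finset.mem_sdiff.1 h).2 hy)
    rw [Finset.mem_sdiff] at ha
    have hbT' : b ∈ T := by
      by_contra h
      exact hbT (Finset.mem_sdiff.2 ⟨hb, h⟩)
    exact ⟨b, hbT', a, ha.1, ha.2, hab⟩

/-- size of the witness sets together with `S` -/
def fewW (s J : ℕ) : ℕ := (J + 1) + (J + 1) * ((J + 1) + (J + 1) * (J + 1)) + s

/-- number of petals -/
def fewP (m w : ℕ) : ℕ := w + w * (w * w) * (m + 2) + 2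

/-- the bound on the number of exceptional vertices -/
def few (m s J : ℕ) : ℕ := sunN (fewP m (fewW s J)) (fewW s J)

theorem few_bad [Fintype V] (hG : IsPlanar G) {m : ℕ} (h4 : NoK2 G m) {s J : ℕ} {S : Finset V}
    (hS : S.card ≤ s) (B : Finset V)
    (hB : ∀ v ∈ B, v ∉ S ∧ ∀ Z, Allowed G v Z → Reach G S J v Z) : B.card < few m s J := by
  by_contra hcon
  push Not at hcon
  set w := fewW s J with hw
  have hW : ∀ v : V, ∃ W : Finset V, v ∈ B → (v ∈ W ∧
      W.card ≤ (J + 1) + (J + 1) * ((J + 1) + (J + 1) * (J + 1)) ∧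
      ∀ Z, Allowed G v Z → ∃ s0 ∈ S, ∃ p : G.Walk v s0, ∀ x ∈ p.support, x ∈ W ∧ x ∉ Z) := by
    intro v
    by_cases hv : v ∈ B
    · obtain ⟨W, h⟩ := witness (hB v hv).2
      exact ⟨W, fun _ => h⟩
    · exact ⟨∅, fun h => absurd h hv⟩
  choose W hW using hW
  obtain ⟨I', hI', K, hc, hK, hpair⟩ := sunflower (fewP m w) w B (fun v => W v ∪ S) (by
    intro v hv
    refine (Finset.card_union_le _ _).trans ?_
    rw [hw, fewW]
    exact Nat.add_le_add (hW v hv).2.1 hS) hcon
  rw [fewP] at hc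
  -- K is small and contains S
  obtain ⟨i0, hi0, i1, hi1, hi01⟩ : ∃ i ∈ I', ∃ j ∈ I', i ≠ j := by
    have : 1 < I'.card := by omega
    obtain ⟨a, ha, b, hb, hab⟩ := Finset.one_lt_card.1 this
    exact ⟨a, ha, b, hb, hab⟩
  have hKc : K.card ≤ w := by
    refine (Finset.card_le_card (hK i0 hi0)).trans ?_
    refine (Finset.card_union_le _ _).trans ?_
    rw [hw, fewW]
    exact Nat.add_le_add (hW i0 (hI' hi0)).2.1 hS
  have hSK : S ⊆ K := by
    rw [← hpair i0 hi0 i1 hi1 hi01]
    exact Finset.subset_inter Finset.subset_union_right Finset.subset_union_right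
  set I'' := I' \ K with hI''
  have hI''c : w * (w * w) * (m + 2) + 2 ≤ I''.card := by
    have := Finset.le_card_sdiff K I'
    rw [hI'']
    omega
  set A : V → Finset V := fun v => (W v ∪ S) \ K with hA
  set N : V → Finset V := fun v => K.filter fun k => ∃ x ∈ petal G (A v) v, G.Adj x k with hN
  have hmN : ∀ v k, k ∈ N v ↔ k ∈ K ∧ ∃ x ∈ petal G (A v) v, G.Adj x k := by
    intro v k
    rw [hN]
    exact Finset.mem_filter
  have hvA : ∀ v ∈ I'', v ∈ A v := by
    intro v hv
    rw [hI'', Finset.mem_sdiff] at hv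
    exact Finset.mem_sdiff.2 ⟨Finset.mem_union_left _ (hW v (hI' hv.1)).1, hv.2⟩
  have hnot : ∀ v ∈ I'', ¬ Allowed G v (N v) := by
    intro v hv hal
    have hv' := hv
    rw [hI'', Finset.mem_sdiff] at hv'
    obtain ⟨s0, hs0, p, hp⟩ := (hW v (hI' hv'.1)).2.2 _ hal
    have key : ∀ {x y : V} (q : G.Walk x y), (∀ z ∈ q.support, z ∈ W v ∧ z ∉ N v) →
        x ∈ petal G (A v) v → y ∉ K := by
      intro x y q
      induction q with
      | nil =>
        intro _ hx
        have := (mem_petal.1 hx).1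
        exact (Finset.mem_sdiff.1 this).2
      | cons hadj q ih =>
        intro hq hx
        rw [SimpleGraph.Walk.support_cons] at hq
        have h1 := hq _ (List.mem_cons_of_mem _ q.start_mem_support)
        apply ih (fun z hz => hq z (List.mem_cons_of_mem _ hz))
        apply petal_step hx hadj
        refine Finset.mem_sdiff.2 ⟨Finset.mem_union_left _ h1.1, ?_⟩
        intro hyK
        exact h1.2 ((hmN _ _).2 ⟨hyK, _, hx, hadj⟩)
    exact key p hp (petal_self (hvA v hv)) (hSK hs0)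
  have hmem : ∀ v ∈ I'', v ∉ K ∧ v ∈ I' := fun v hv => by
    rw [hI'', Finset.mem_sdiff] at hv
    exact ⟨hv.2, hv.1⟩
  -- each petal has three attachments, or its vertex is adjacent to two core vertices
  have hT : ∀ v : V, ∃ t : V × V × V, v ∈ I'' → t ∈ K ×ˢ (K ×ˢ K) ∧ t.1 ≠ t.2.1 ∧
      ((t.1 ∈ N v ∧ t.2.1 ∈ N v ∧ t.2.2 ∈ N v ∧ t.1 ≠ t.2.2 ∧ t.2.1 ≠ t.2.2) ∨
        (t.2.1 = t.2.2 ∧ G.Adj v t.1 ∧ G.Adj v t.2.1)) := by
    intro v
    by_cases hv : v ∈ I''
    · by_cases h3 : 2 < (N v).card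
      · obtain ⟨k0, k1, k2, hk0, hk1, hk2, h01, h02, h12⟩ := Finset.two_lt_card_iff.1 h3
        refine ⟨(k0, k1, k2), fun _ => ⟨?_, h01, Or.inl ⟨hk0, hk1, hk2, h02, h12⟩⟩⟩
        rw [Finset.mem_product, Finset.mem_product]
        exact ⟨((hmN _ _).1 hk0).1, ((hmN _ _).1 hk1).1, ((hmN _ _).1 hk2).1⟩
      · have h1 := hnot v hv
        unfold Allowed at h1
        have h2 : (N v).card = 2 ∧ ∀ z ∈ N v, G.Adj v z := by
          by_contra h2
          exact h1 ⟨by omega, fun h3 => (hmem v hv).1 ((hmN _ _).1 h3).1, h2⟩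
        obtain ⟨x, y, hxy, hMe⟩ := Finset.card_eq_two.1 h2.1
        have hx : x ∈ N v := by rw [hMe]; simp
        have hy : y ∈ N v := by rw [hMe]; simp
        refine ⟨(x, y, y), fun _ => ⟨?_, hxy, Or.inr ⟨rfl, h2.2 x hx, h2.2 y hy⟩⟩⟩
        rw [Finset.mem_product, Finset.mem_product]
        exact ⟨((hmN _ _).1 hx).1, ((hmN _ _).1 hy).1, ((hmN _ _).1 hy).1⟩
    · exact ⟨(v, v, v), fun h => absurd h hv⟩
  choose f hf using hT
  -- pigeonhole
  obtain ⟨t, -, hM⟩ := Finset.exists_lt_card_fiber_of_mul_lt_card_of_maps_to (s := I'')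
    (t := K ×ˢ (K ×ˢ K)) (f := f) (n := m + 2) (fun v hv => (hf v hv).1) (by
        rw [Finset.card_product, Finset.card_product]
        have : K.card * (K.card * K.card) * (m + 2) ≤ w * (w * w) * (m + 2) :=
          Nat.mul_le_mul_right _ (Nat.mul_le_mul hKc (Nat.mul_le_mul hKc hKc))
        omega)
  by_cases ht : t.2.1 = t.2.2
  · -- many common neighbours
    have hadj : ∀ v ∈ I''.filter (fun v => f v = t), G.Adj v t.1 ∧ G.Adj v t.2.1 := by
      intro v hv
      rw [Finset.mem_filter] at hv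
      have h1 := (hf v hv.1).2.2
      rw [hv.2] at h1
      rcases h1 with h1 | h1
      · exact absurd ht h1.2.2.2.2
      · exact h1.2
    obtain ⟨v0, hv0⟩ : (I''.filter (fun v => f v = t)).Nonempty := by
      rw [← Finset.card_pos]; omega
    rw [Finset.mem_filter] at hv0
    have h12 : t.1 ≠ t.2.1 := by
      rw [← hv0.2]
      exact (hf v0 hv0.1).2.1
    have := h4 t.1 t.2.1 h12 _ hadj
    omega
  · obtain ⟨a, b, c, ha, hb, hcc, hab, hac, hbc⟩ := Finset.two_lt_card_iff.1
      (lt_of_le_of_lt (Nat.le_add_left 2 m) hM)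
    rw [Finset.mem_filter] at ha hb hcc
    have hpd : ∀ v ∈ I'', ∀ v' ∈ I'', v ≠ v' →
        Disjoint (petal G (A v) v) (petal G (A v') v') := by
      intro v hv v' hv' hne
      rw [Finset.disjoint_left]
      intro x hx hx'
      have h1 := Finset.mem_sdiff.1 (mem_petal.1 hx).1
      have h2 := Finset.mem_sdiff.1 (mem_petal.1 hx').1
      apply h1.2
      rw [← hpair v (hmem v hv).2 v' (hmem v' hv').2 hne]
      exact Finset.mem_inter.2 ⟨h1.1, h2.1⟩
    have htN : ∀ v, v ∈ I'' → f v = t → t.1 ∈ N v ∧ t.2.1 ∈ N v ∧ t.2.2 ∈ N v ∧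
        t.1 ≠ t.2.2 ∧ t.2.1 ≠ t.2.2 ∧ t.1 ≠ t.2.1 := by
      intro v hv hvt
      have h1 := (hf v hv).2
      rw [hvt] at h1
      rcases h1.2 with h2 | h2
      · exact ⟨h2.1, h2.2.1, h2.2.2.1, h2.2.2.2.1, h2.2.2.2.2, h1.1⟩
      · exact absurd h2.1 ht
    obtain ⟨-, -, -, h02, h12, h01⟩ := htN a ha.1 ha.2
    set vv : Fin 3 → V := ![a, b, c] with hvv
    set kk : Fin 3 → V := ![t.1, t.2.1, t.2.2] with hkk
    have hvvI : ∀ i, vv i ∈ I'' ∧ f (vv i) = t := by
      intro i
      fin_cases i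
      · exact ha
      · exact hb
      · exact hcc
    have hkkM : ∀ i j, kk j ∈ N (vv i) := by
      intro i j
      obtain ⟨h1, h2, h3, -⟩ := htN (vv i) (hvvI i).1 (hvvI i).2
      fin_cases j
      · exact h1
      · exact h2
      · exact h3
    have hvvinj : Function.Injective vv := by
      intro i j hij
      fin_cases i <;> fin_cases j <;> simp [hvv] at hij ⊢
      · exact hab hij
      · exact hac hij
      · exact hab hij.symm
      · exact hbc hij
      · exact hac hij.symm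
      · exact hbc hij.symm
    have hkkinj : Function.Injective kk := by
      intro i j hij
      fin_cases i <;> fin_cases j <;> simp [hkk] at hij ⊢
      · exact h01 hij
      · exact h02 hij
      · exact h01 hij.symm
      · exact h12 hij
      · exact h02 hij.symm
      · exact h12 hij.symm
    refine no_K33 hG (D := fun i => petal G (A (vv i)) (vv i)) (k := kk) ?_ ?_ hkkinj ?_ ?_
    · intro i
      exact petal_conn (hvA _ (hvvI i).1)
    · intro i j hij
      exact hpd _ (hvvI i).1 _ (hvvI j).1 (fun h => hij (hvvinj h))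
    · intro i j h
      exact (Finset.mem_sdiff.1 (mem_petal.1 h).1).2 ((hmN _ _).1 (hkkM i j)).1
    · intro i j
      exact ((hmN _ _).1 (hkkM i j)).2

end Pool.Agent.H41.Fire
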